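import Pool.Agent.P8H28.AD.Defs

/-!
# Base change
-/

set_option linter.unusedSectionVars false

namespace Pool.Agent.P8H28.AD

open Pool.Agent.W528.ZC Pool.Agent.P8H28.QF

noncomputable section

variable {ι : Type} [Fintype ι] [DecidableEq ι]

/-- The infinitesimal similitudes of `ψ` that commute with `E` and, on the tensors with `m` indices,
with `𝓓 m`, for all `m`. -/
def hA {K : Type} [Field K] (ψ : Matrix ι ι K) (E : Set (Matrix ι ι K))
    (𝓓 : ∀ m, Set (Matrix (Fin m → ι) (Fin m → ι) K)) : Submodule K (Matrix ι ι K) :=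
  ⨅ m, hM m ψ E (𝓓 m)

theorem mem_hA {K : Type} [Field K] {ψ : Matrix ι ι K} {E : Set (Matrix ι ι K)}
    {𝓓 : ∀ m, Set (Matrix (Fin m → ι) (Fin m → ι) K)} {x : Matrix ι ι K} :
    x ∈ hA ψ E 𝓓 ↔ ∀ m, x ∈ hM m ψ E (𝓓 m) := Submodule.mem_iInf _

variable {L : Type} [Field L] [Algebra ℚ L] {ψ : Matrix ι ι ℚ} {E : Set (Matrix ι ι ℚ)}
  {𝓓 : ∀ m, Set (Matrix (Fin m → ι) (Fin m → ι) ℚ)}

theorem hA_br {K : Type} [Field K] {ψ : Matrix ι ι K} {E : Set (Matrix ι ι K)}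
    {𝓓 : ∀ m, Set (Matrix (Fin m → ι) (Fin m → ι) K)} {x y : Matrix ι ι K}
    (hx : x ∈ hA ψ E 𝓓) (hy : y ∈ hA ψ E 𝓓) : x * y - y * x ∈ hA ψ E 𝓓 :=
  mem_hA.2 fun m => hM_br (mem_hA.1 hx m) (mem_hA.1 hy m)

theorem crd_hA {x : Matrix ι ι L} (hx : x ∈ hA (mapQ L ψ) (mapQ L '' E) fun m => mapQ L '' 𝓓 m)
    (φ : L →ₗ[ℚ] ℚ) : crd φ x ∈ hA ψ E 𝓓 :=
  mem_hA.2 fun m => crd_hM (mem_hA.1 hx m) φ

theorem mapQ_hA {x : Matrix ι ι ℚ} (hx : x ∈ hA ψ E 𝓓) :
    mapQ L x ∈ hA (mapQ L ψ) (mapQ L '' E) fun m => mapQ L '' 𝓓 m :=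
  mem_hA.2 fun m => mapQ_hM (mem_hA.1 hx m)

theorem hA_span {x : Matrix ι ι L}
    (hx : x ∈ hA (mapQ L ψ) (mapQ L '' E) fun m => mapQ L '' 𝓓 m) :
    x ∈ Submodule.span L (mapQ L '' (hA ψ E 𝓓 : Set (Matrix ι ι ℚ))) := by
  refine Submodule.span_mono ?_ (mem_span_crd (k := ℚ) x)
  rintro _ ⟨φ, rfl⟩
  exact ⟨_, crd_hA hx φ, rfl⟩

theorem hM_span {m : ℕ} {𝔻 : Set (Matrix (Fin m → ι) (Fin m → ι) ℚ)} {x : Matrix ι ι L}
    (hx : x ∈ hM m (mapQ L ψ) (mapQ L '' E) (mapQ L '' 𝔻)) :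
    x ∈ Submodule.span L (mapQ L '' (hM m ψ E 𝔻 : Set (Matrix ι ι ℚ))) := by
  refine Submodule.span_mono ?_ (mem_span_crd (k := ℚ) x)
  rintro _ ⟨φ, rfl⟩
  exact ⟨_, crd_hM hx φ, rfl⟩

/-- The matrices over `L` that commute with rational ones are combinations of rational ones. -/
theorem commutant_span {m : ℕ} {G : Set (Matrix ι ι ℚ)} {P : Matrix (Fin m → ι) (Fin m → ι) L}
    (hP : ∀ x ∈ G, P * Td m (mapQ L x) = Td m (mapQ L x) * P) :
    P ∈ Submodule.span L (mapQ L '' {M : Matrix (Fin m → ι) (Fin m → ι) ℚ |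
      ∀ x ∈ G, M * Td m x = Td m x * M}) := by
  refine Submodule.span_mono ?_ (mem_span_crd (k := ℚ) P)
  rintro _ ⟨φ, rfl⟩
  refine ⟨crd φ P, fun x hx => ?_, rfl⟩
  have h1 := congrArg (crd φ) (hP x hx)
  unfold mapQ at h1
  rw [Td_map, crd_mul_right, crd_mul_left] at h1
  exact h1

/-- A matrix that commutes with `Td m x` for rational `x` in a set commutes with it for all
combinations. -/
theorem comm_td {m : ℕ} {S : Set (Matrix ι ι L)} {P : Matrix (Fin m → ι) (Fin m → ι) L}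
    (hP : ∀ x ∈ S, P * Td m x = Td m x * P) {y : Matrix ι ι L} (hy : y ∈ Submodule.span L S) :
    P * Td m y = Td m y * P := by
  induction hy using Submodule.span_induction with
  | mem y hy => exact hP y hy
  | zero =>
    have h : Td m (0 : Matrix ι ι L) = 0 := by
      unfold Td
      rw [map_zero, map_zero]
    rw [h, mul_zero, zero_mul]
  | add a b _ _ ha hb => rw [Td_add, mul_add, add_mul, ha, hb]
  | smul c a _ ha => rw [Td_smul, mul_smul_comm, smul_mul_assoc, ha]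

/-! ### The Lie algebra of a Hodge structure -/

/-- The annihilator of the Hodge classes, over `K`. -/
def gH (K : Type) [Field K] [Algebra ℚ K] (ψ : Matrix ι ι ℚ) (N : Matrix ι ι ℂ) :
    Submodule K (Matrix ι ι K) :=
  hA (mapQ K ψ) (mapQ K '' {e | IsHodgeEnd N e}) fun m => mapQ K '' {M | IsHodgeTens m N M}

/-- The rational annihilator. -/
def gQ (ψ : Matrix ι ι ℚ) (N : Matrix ι ι ℂ) : Submodule ℚ (Matrix ι ι ℚ) :=
  hA ψ {e | IsHodgeEnd N e} fun m => {M | IsHodgeTens m N M}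

theorem form_of {w : ℤ} {N : Matrix ι ι ℂ} (h : IsPolarised w ψ N) :
    N.transpose * mapQ ℂ ψ + mapQ ℂ ψ * N = (w : ℂ) • mapQ ℂ ψ := by
  obtain ⟨B, p, hB, h1, h2⟩ := h.basis
  have hB' : IsUnit B.transpose.det := by rwa [Matrix.det_transpose]
  have hcB : IsUnit (cj B).det := by
    have e : (cj B).det = (starRingEnd ℂ) B.det := by
      unfold cj
      exact ((starRingEnd ℂ).map_det B).symm
    rw [e]
    exact hB.map _
  -- multiply by `Bᵀ` and `conj B`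
  have h3 : cj N * cj B = cj B * Matrix.diagonal (fun a => (p a : ℂ)) := by
    have h4 := congrArg cj h1
    unfold cj at h4 ⊢
    rw [Matrix.map_mul, Matrix.map_mul, Matrix.diagonal_map (map_zero _)] at h4
    rw [h4]
    congr 2
    funext a
    exact map_intCast (starRingEnd ℂ) (p a)
  rw [h.real, sub_mul, smul_mul_assoc, one_mul] at h3
  have h5 : N * cj B = (w : ℂ) • cj B - cj B * Matrix.diagonal (fun a => (p a : ℂ)) := by
    rw [← h3, sub_sub_cancel]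
  have h6 : B.transpose * N.transpose = Matrix.diagonal (fun a => (p a : ℂ)) * B.transpose := by
    rw [← Matrix.transpose_mul, h1, Matrix.transpose_mul, Matrix.diagonal_transpose]
  have h7 : B.transpose * (N.transpose * mapQ ℂ ψ + mapQ ℂ ψ * N) * cj B =
      B.transpose * ((w : ℂ) • mapQ ℂ ψ) * cj B := by
    rw [mul_add, add_mul, ← mul_assoc B.transpose, h6, mul_assoc (Matrix.diagonal _),
      mul_assoc (Matrix.diagonal _), h2, ← mul_assoc B.transpose, mul_assoc _ N, h5, mul_sub,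
      mul_smul_comm, ← mul_assoc, h2, mul_smul_comm, smul_mul_assoc, h2,
      Matrix.diagonal_mul_diagonal, Matrix.diagonal_mul_diagonal]
    simp only [mul_comm]
    rw [add_sub_cancel]
  have h8 := congrArg (fun M => B.transpose⁻¹ * M * (cj B)⁻¹) h7
  simp only [mul_assoc] at h8
  rw [Matrix.mul_nonsing_inv _ hcB, mul_one, mul_one, ← mul_assoc, ← mul_assoc,
    Matrix.nonsing_inv_mul _ hB', one_mul, one_mul] at h8
  exact h8

/-- The operator `N` is in the annihilator. -/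
theorem N_mem {w : ℤ} {N : Matrix ι ι ℂ} (h : IsPolarised w ψ N) : N ∈ gH ℂ ψ N := by
  refine mem_hA.2 fun m => ⟨⟨_, form_of h⟩, ?_, ?_⟩
  · rintro _ ⟨e, he, rfl⟩
    exact he
  · rintro _ ⟨P, hP, rfl⟩
    exact hP

theorem N_span {w : ℤ} {N : Matrix ι ι ℂ} (h : IsPolarised w ψ N) :
    N ∈ Submodule.span ℂ (mapQ ℂ '' (gQ ψ N : Set (Matrix ι ι ℚ))) :=
  hA_span (N_mem h)

/-- A rational matrix that commutes with the annihilator on the tensors is a Hodge endomorphism. -/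
theorem hodge_of_comm {w : ℤ} {N : Matrix ι ι ℂ} (h : IsPolarised w ψ N) {m : ℕ}
    {M : Matrix (Fin m → ι) (Fin m → ι) ℚ} (hM : ∀ x ∈ gQ ψ N, M * Td m x = Td m x * M) :
    IsHodgeTens m N M := by
  refine comm_td ?_ (N_span h)
  rintro _ ⟨x, hx, rfl⟩
  unfold mapQ
  rw [Td_map, ← Matrix.map_mul, hM x hx, Matrix.map_mul]

end

end Pool.Agent.P8H28.AD
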