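import Mathlib
import Pool.Agent.P8H28.QF.Rat

/-!
# Polarised Hodge structures and Hodge endomorphisms of the tensor powers: definitions
-/

namespace Pool.Agent.P8H28.AD

open Pool.Agent.W528.ZC Pool.Agent.P8H28.QF

variable {ι : Type} [Fintype ι] [DecidableEq ι]

/-- The matrix with the complex conjugate entries. -/
noncomputable def cj {κ κ' : Type} (M : Matrix κ κ' ℂ) : Matrix κ κ' ℂ := M.map (starRingEnd ℂ)

/-- The space of vectors with rational coordinates indexed by `ι`, the form with the matrix `ψ` and the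
operator `N` on the complex vectors, with the eigenvalue `p` on `H^(p, w - p)`, are a polarised Hodge
structure of weight `w`: the form is symmetric or alternating according to the parity of `w`, the
complex conjugate of `H^(p, w - p)` is `H^(w - p, p)`, and there is a basis, given by the columns of `B`,
which consists of vectors in the `H^(p a, w - p a)` and is orthonormal for the Hermitian form
`i^(2 p - w) ψ(u, conj v)` (the Hodge-Riemann relations). -/
structure IsPolarised (w : ℤ) (ψ : Matrix ι ι ℚ) (N : Matrix ι ι ℂ) : Prop where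
  symm : ψ.transpose = ((-1 : ℚ) ^ w) • ψ
  real : cj N = (w : ℂ) • (1 : Matrix ι ι ℂ) - N
  basis : ∃ (B : Matrix ι ι ℂ) (p : ι → ℤ), IsUnit B.det ∧
    N * B = B * Matrix.diagonal (fun a => (p a : ℂ)) ∧
    B.transpose * mapQ ℂ ψ * cj B = Matrix.diagonal (fun a => Complex.I ^ (w - 2 * p a))

/-- The rational matrix `M` is an endomorphism of the Hodge structure with the operator `N`. -/
def IsHodgeEnd (N : Matrix ι ι ℂ) (M : Matrix ι ι ℚ) : Prop := mapQ ℂ M * N = N * mapQ ℂ M

/-- The rational matrix `M` is an endomorphism of the `m`-th tensor power of the Hodge structure with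
the operator `N` (which acts on the tensors by the derivation `Td m N`). -/
def IsHodgeTens (m : ℕ) (N : Matrix ι ι ℂ) (M : Matrix (Fin m → ι) (Fin m → ι) ℚ) : Prop :=
  mapQ ℂ M * Td m N = Td m N * mapQ ℂ M

/-- The exchange of the two indices. -/
def swp (a : Fin 2 → ι) : Fin 2 → ι := ![a 1, a 0]

/-- The endomorphism `M` of the tensors with two indices has its image in the tensors `u` with
`u (j, i) = ε u (i, j)` and kills those with `u (j, i) = - ε u (i, j)`: for `ε = 1` it is an
endomorphism of the symmetric square, for `ε = -1` of the exterior square. -/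
def OnSquare (ε : ℚ) (M : Matrix (Fin 2 → ι) (Fin 2 → ι) ℚ) : Prop :=
  ∀ a b, M (swp a) b = ε * M a b ∧ M a (swp b) = ε * M a b

/-- The operator acts on `m`-tensors of `(-1)^N`, given by the basis `B` and the degrees `p`. -/
noncomputable def weil (B : Matrix ι ι ℂ) (p : ι → ℤ) : Matrix ι ι ℂ :=
  B * Matrix.diagonal (fun a => ((-1 : ℂ) ^ p a)) * B⁻¹

/-- Package POS. -/
def S_POS : Prop := ∀ (ι : Type) [Fintype ι] [DecidableEq ι] (w : ℤ) (ψ : Matrix ι ι ℚ)
  (B : Matrix ι ι ℂ) (p : ι → ℤ), IsUnit B.det →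
  B.transpose * mapQ ℂ ψ * cj B = Matrix.diagonal (fun a => Complex.I ^ (w - 2 * p a)) →
  ∀ z : Matrix ι ι ℚ, z.transpose * ψ + ψ * z = 0 →
    (mapQ ℂ z * ((weil B p)⁻¹ * mapQ ℂ z * weil B p)).trace = 0 → z = 0

/-- Package PRJ: the symmetric bilinear form on the tensors with two indices. -/
def S_PRJ : Prop := ∀ (ι : Type) [Fintype ι] [DecidableEq ι] (w : ℤ) (ψ : Matrix ι ι ℚ)
  (B : Matrix ι ι ℂ) (p : ι → ℤ), IsUnit B.det →
  B.transpose * mapQ ℂ ψ * cj B = Matrix.diagonal (fun a => Complex.I ^ (w - 2 * p a)) →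
  ∀ u : (Fin 2 → ι) → ℚ,
    (fun a => ((u a : ℚ) : ℂ)) ⬝ᵥ ((tens 2 (mapQ ℂ ψ)).mulVec
      ((tens 2 (weil B p)).mulVec (fun a => ((u a : ℚ) : ℂ)))) = 0 → u = 0

end Pool.Agent.P8H28.AD
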