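import Pool.Agent.P8H28.AD.Base

/-!
# The operator `(-1)^N`
-/

set_option linter.unusedSectionVars false

namespace Pool.Agent.P8H28.AD

open Pool.Agent.W528.ZC Pool.Agent.P8H28.QF Pool.Agent.P8H28.SQ

noncomputable section

variable {ι : Type} [Fintype ι] [DecidableEq ι] {N B : Matrix ι ι ℂ} {p : ι → ℤ} {m : ℕ}

/-- The column vectors of `B`. -/
def col (B : Matrix ι ι ℂ) (a : ι) : ι → ℂ := fun i => B i a

theorem N_col (h : N * B = B * Matrix.diagonal (fun a => (p a : ℂ))) (a : ι) :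
    N.mulVec (col B a) = (p a : ℂ) • col B a := by
  funext i
  have h1 := congrFun (congrFun h i) a
  rw [Matrix.mul_diagonal, Matrix.mul_apply] at h1
  rw [Pi.smul_apply, smul_eq_mul, mul_comm]
  exact h1

theorem W_col (hB : IsUnit B.det) (a : ι) :
    (weil B p).mulVec (col B a) = ((-1 : ℂ) ^ p a) • col B a := by
  have h : weil B p * B = B * Matrix.diagonal (fun a => ((-1 : ℂ) ^ p a)) := by
    unfold weil
    rw [mul_assoc, Matrix.nonsing_inv_mul _ hB, mul_one]
  funext i
  have h1 := congrFun (congrFun h i) a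
  rw [Matrix.mul_diagonal, Matrix.mul_apply] at h1
  rw [Pi.smul_apply, smul_eq_mul, mul_comm]
  exact h1

/-- The products of the columns. -/
def pc (B : Matrix ι ι ℂ) (a : Fin m → ι) : (Fin m → ι) → ℂ := pt fun i => col B (a i)

theorem N_pc (h : N * B = B * Matrix.diagonal (fun a => (p a : ℂ))) (a : Fin m → ι) :
    dt m N (pc B a) = ((∑ i, p (a i) : ℤ) : ℂ) • pc B a := by
  unfold pc
  rw [dt_pt]
  have h1 : ∀ k, pt (Function.update (fun i => col B (a i)) k (N.mulVec (col B (a k)))) =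
      ((p (a k) : ℤ) : ℂ) • pt (fun i => col B (a i)) := by
    intro k
    rw [N_col h, MultilinearMap.map_update_smul, Function.update_eq_self]
  rw [Finset.sum_congr rfl fun k _ => h1 k, ← Finset.sum_smul]
  congr 1
  push_cast
  rfl

theorem W_pc (hB : IsUnit B.det) (a : Fin m → ι) :
    (tens m (weil B p)).mulVec (pc B a) = ((-1 : ℂ) ^ (∑ i, p (a i))) • pc B a := by
  unfold pc
  rw [tens_pt]
  have h1 : (fun i => (weil B p).mulVec (col B (a i))) = fun i =>
      ((-1 : ℂ) ^ p (a i)) • col B (a i) := funext fun i => W_col hB (a i)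
  rw [h1, MultilinearMap.map_smul_univ]
  congr 1
  have h2 : ∀ s : Finset (Fin m), ∏ i ∈ s, (-1 : ℂ) ^ p (a i) = (-1 : ℂ) ^ (∑ i ∈ s, p (a i)) := by
    intro s
    induction s using Finset.induction_on with
    | empty => simp
    | insert i s hi ih =>
      rw [Finset.prod_insert hi, Finset.sum_insert hi, ih, zpow_add₀ (by norm_num)]
  exact h2 _

theorem pc_span (hB : IsUnit B.det) : Submodule.span ℂ (Set.range fun a : Fin m → ι => pc B a) = ⊤ := by
  rw [eq_top_iff]
  intro u _
  have h1 : tens m B * tens m B⁻¹ = 1 := by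
    rw [← tens_mul, Matrix.mul_nonsing_inv _ hB, tens_one]
  have h2 : u = (tens m B).mulVec ((tens m B⁻¹).mulVec u) := by
    rw [Matrix.mulVec_mulVec, h1, Matrix.one_mulVec]
  rw [h2]
  have h3 : (tens m B).mulVec ((tens m B⁻¹).mulVec u) =
      ∑ a, ((tens m B⁻¹).mulVec u) a • pc B a := by
    funext b
    rw [Finset.sum_apply]
    unfold Matrix.mulVec dotProduct
    refine Finset.sum_congr rfl fun a _ => ?_
    rw [Pi.smul_apply, smul_eq_mul, mul_comm]
    congr 1
  rw [h3]
  exact Submodule.sum_mem _ fun a _ => Submodule.smul_mem _ _ (Submodule.subset_span ⟨a, rfl⟩)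

/-- The function `(-1)^r`. -/
theorem exists_sign : ∃ φ : ℂ → ℂ, ∀ r : ℤ, φ r = (-1 : ℂ) ^ r :=
  ⟨Function.extend (Int.cast : ℤ → ℂ) (fun r => (-1 : ℂ) ^ r) 0, fun _ =>
    Int.cast_injective.extend_apply _ _ _⟩

theorem top_weil {φ : ℂ → ℂ} (hφ : ∀ r : ℤ, φ r = (-1 : ℂ) ^ r) (hB : IsUnit B.det)
    (h : N * B = B * Matrix.diagonal (fun a => (p a : ℂ))) :
    ⨆ μ, repS φ (dt m N) (Matrix.toLin' (tens m (weil B p))) μ = ⊤ := by
  rw [eq_top_iff, ← pc_span (m := m) hB, Submodule.span_le]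
  rintro _ ⟨a, rfl⟩
  refine Submodule.mem_iSup_of_mem ((∑ i, p (a i) : ℤ) : ℂ) ⟨?_, ?_⟩
  · rw [Module.End.mem_maxGenEigenspace]
    refine ⟨1, ?_⟩
    rw [pow_one, LinearMap.sub_apply]
    change dt m N (pc B a) - ((∑ i, p (a i) : ℤ) : ℂ) • pc B a = 0
    rw [N_pc h, sub_self]
  · rw [hφ]
    change Matrix.toLin' (tens m (weil B p)) (pc B a) = _
    rw [Matrix.toLin'_apply, W_pc hB]

/-- The subspaces of the tensors stable under `N` are stable under `(-1)^N`. -/
theorem stable_weil (hB : IsUnit B.det) (h : N * B = B * Matrix.diagonal (fun a => (p a : ℂ)))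
    {U : Submodule ℂ ((Fin m → ι) → ℂ)} (hU : ∀ u ∈ U, dt m N u ∈ U) :
    ∀ u ∈ U, (tens m (weil B p)).mulVec u ∈ U := by
  obtain ⟨φ, hφ⟩ := exists_sign
  intro u hu
  have h1 := stable_of_top (top_weil (m := m) hφ hB h) hU u hu
  rwa [Matrix.toLin'_apply] at h1

/-- The matrices that commute with `N` on the tensors commute with `(-1)^N`. -/
theorem comm_weil (hB : IsUnit B.det) (h : N * B = B * Matrix.diagonal (fun a => (p a : ℂ)))
    {P : Matrix (Fin m → ι) (Fin m → ι) ℂ} (hP : P * Td m N = Td m N * P) :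
    P * tens m (weil B p) = tens m (weil B p) * P := by
  obtain ⟨φ, hφ⟩ := exists_sign
  apply Matrix.toLin'.injective
  rw [Matrix.toLin'_mul, Matrix.toLin'_mul]
  have hP' : ∀ v, Matrix.toLin' P (dt m N v) = dt m N (Matrix.toLin' P v) := by
    intro v
    have h1 := congrArg (fun M => Matrix.toLin' M v) hP
    simp only [Matrix.toLin'_mul, LinearMap.comp_apply] at h1
    unfold Td at h1
    rwa [Matrix.toLin'_toMatrix'] at h1
  have hrep := replica_of_top (top_weil (m := m) hφ hB h)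
  have h4 : ∀ (μ : ℂ) (n : ℕ), ∀ v : (Fin m → ι) → ℂ,
      ((dt m N - μ • (1 : Module.End ℂ ((Fin m → ι) → ℂ))) ^ n) (Matrix.toLin' P v) =
      Matrix.toLin' P (((dt m N - μ • (1 : Module.End ℂ ((Fin m → ι) → ℂ))) ^ n) v) := by
    intro μ n
    induction n with
    | zero => exact fun v => rfl
    | succ n ih =>
      intro v
      rw [pow_succ, Module.End.mul_apply, Module.End.mul_apply, ← ih]
      congr 1
      simp only [LinearMap.sub_apply, LinearMap.smul_apply, Module.End.one_apply, map_sub,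
        map_smul, hP']
  refine LinearMap.ext fun u => ?_
  rw [LinearMap.comp_apply, LinearMap.comp_apply]
  have h1 : u ∈ ⨆ μ, repS φ (dt m N) (Matrix.toLin' (tens m (weil B p))) μ := by
    rw [top_weil hφ hB h]
    trivial
  induction h1 using Submodule.iSup_induction' with
  | mem μ v hv =>
    have h2 : Matrix.toLin' P v ∈ (dt m N).maxGenEigenspace μ := by
      have h3 := hv.1
      rw [Module.End.mem_maxGenEigenspace] at h3 ⊢
      obtain ⟨n, hn⟩ := h3
      exact ⟨n, by rw [h4, hn, map_zero]⟩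
    rw [hrep μ _ h2, hv.2, map_smul]
  | zero => rw [map_zero, map_zero, map_zero]
  | add a b _ _ ha hb => rw [map_add, map_add, map_add, map_add, ha, hb]

end

end Pool.Agent.P8H28.AD
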