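import Pool.Agent.P8H28.AD.Ide2
import Pool.Agent.P8H59.AD.Pos
import Pool.Agent.P8H88.AD.Prj

/-!
# The comparison of two Hodge structures
-/

set_option linter.unusedSectionVars false

namespace Pool.Agent.P8H28.AD

open Pool.Agent.W528.ZC Pool.Agent.P8H28.QF Pool.Agent.P8H28.SQ

noncomputable section

variable {ι : Type} [Fintype ι] [DecidableEq ι] {w : ℤ} {ψ : Matrix ι ι ℚ} {N : Matrix ι ι ℂ}

/-- Conjugation and derivations. -/
theorem Td_conj {m : ℕ} {K : Type} [Field K] {g g' : Matrix ι ι K} (hg : g * g' = 1)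
    (x : Matrix ι ι K) : tens m g * Td m x * tens m g' = Td m (g * x * g') := by
  apply Matrix.toLin'.injective
  rw [Matrix.toLin'_mul, Matrix.toLin'_mul]
  unfold Td
  rw [Matrix.toLin'_toMatrix', Matrix.toLin'_toMatrix']
  refine LinearMap.ext fun u => ?_
  rw [LinearMap.comp_apply, LinearMap.comp_apply]
  have hu : u ∈ Submodule.span K (Set.range fun v : Fin m → ι → K => pt v) := by
    rw [pt_span]
    trivial
  induction hu using Submodule.span_induction with
  | mem u hu =>
    obtain ⟨v, rfl⟩ := hu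
    rw [Matrix.toLin'_apply, Matrix.toLin'_apply]
    change (tens m g).mulVec (dt m x ((tens m g').mulVec (pt v))) = dt m (g * x * g') (pt v)
    rw [tens_pt, dt_pt, dt_pt, Matrix.mulVec_sum]
    refine Finset.sum_congr rfl fun k _ => ?_
    rw [tens_pt]
    congr 1
    funext i
    by_cases hi : i = k
    · subst hi
      rw [Function.update_self, Function.update_self, Matrix.mulVec_mulVec, Matrix.mulVec_mulVec,
        mul_assoc]
    · rw [Function.update_of_ne hi, Function.update_of_ne hi, Matrix.mulVec_mulVec, hg,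
        Matrix.one_mulVec]
  | zero => rw [map_zero, map_zero, map_zero, map_zero]
  | add a b _ _ ha hb => rw [map_add, map_add, map_add, map_add, ha, hb]
  | smul c a _ ha => rw [map_smul, map_smul, map_smul, map_smul, ha]

section weil

variable {B : Matrix ι ι ℂ} {p : ι → ℤ}

theorem zero_or {a b : ℂ} {x : ℂ} (h : a * x = x * b) (hab : a ≠ b) : x = 0 := by
  have h1 : (a - b) * x = 0 := by linear_combination h
  rcases mul_eq_zero.1 h1 with h2 | h2
  · exact absurd (sub_eq_zero.1 h2) hab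
  · exact h2

theorem comm_weil0 (hB : IsUnit B.det) (h : N * B = B * Matrix.diagonal (fun a => (p a : ℂ)))
    {P : Matrix ι ι ℂ} (hP : P * N = N * P) : P * weil B p = weil B p * P := by
  have e1 : B * B⁻¹ = 1 := Matrix.mul_nonsing_inv _ hB
  have e2 : B⁻¹ * B = 1 := Matrix.nonsing_inv_mul _ hB
  set F := B⁻¹ * P * B with hF
  have hF1 : F * Matrix.diagonal (fun a => (p a : ℂ)) =
      Matrix.diagonal (fun a => (p a : ℂ)) * F := by
    have h1 : B * Matrix.diagonal (fun a => (p a : ℂ)) * B⁻¹ = N := by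
      rw [← h, mul_assoc, e1, mul_one]
    have h2 : B⁻¹ * N = Matrix.diagonal (fun a => (p a : ℂ)) * B⁻¹ := by
      rw [← h1, ← mul_assoc, ← mul_assoc, e2, one_mul]
    rw [hF, mul_assoc, ← h, ← mul_assoc, mul_assoc B⁻¹, hP, ← mul_assoc, h2, mul_assoc, mul_assoc,
      mul_assoc]
  have hF2 : F * Matrix.diagonal (fun a => ((-1 : ℂ) ^ p a)) =
      Matrix.diagonal (fun a => ((-1 : ℂ) ^ p a)) * F := by
    ext i j
    have h1 := congrFun (congrFun hF1 i) j
    rw [Matrix.mul_diagonal, Matrix.diagonal_mul] at h1 ⊢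
    by_cases hij : p i = p j
    · rw [hij, mul_comm]
    · have h2 := zero_or h1.symm (by exact_mod_cast hij)
      rw [h2, zero_mul, mul_zero]
  have hP' : P = B * F * B⁻¹ := by
    rw [hF, mul_assoc B⁻¹, ← mul_assoc B, e1, one_mul, mul_assoc, e1, mul_one]
  rw [hP']
  unfold weil
  calc B * F * B⁻¹ * (B * Matrix.diagonal (fun a => ((-1 : ℂ) ^ p a)) * B⁻¹)
      = B * F * (B⁻¹ * B) * Matrix.diagonal (fun a => ((-1 : ℂ) ^ p a)) * B⁻¹ := by
        simp only [mul_assoc]
    _ = B * (F * Matrix.diagonal (fun a => ((-1 : ℂ) ^ p a))) * B⁻¹ := by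
        rw [e2, mul_one]
        simp only [mul_assoc]
    _ = B * (Matrix.diagonal (fun a => ((-1 : ℂ) ^ p a)) * (B⁻¹ * B) * F) * B⁻¹ := by
        rw [hF2, e2, mul_one]
    _ = _ := by simp only [mul_assoc]

/-- The form and `(-1)^N`. -/
theorem form_weil (hB : IsUnit B.det) (h : N * B = B * Matrix.diagonal (fun a => (p a : ℂ)))
    {S : Matrix ι ι ℂ} (hS : N.transpose * S + S * N = (w : ℂ) • S) :
    S * weil B p = ((-1 : ℂ) ^ w) • ((weil B p).transpose * S) := by
  have e1 : B * B⁻¹ = 1 := Matrix.mul_nonsing_inv _ hB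
  have e2 : B⁻¹ * B = 1 := Matrix.nonsing_inv_mul _ hB
  have e3 : B⁻¹.transpose * B.transpose = 1 := by
    rw [← Matrix.transpose_mul, e1, Matrix.transpose_one]
  have e4 : B.transpose * B⁻¹.transpose = 1 := by
    rw [← Matrix.transpose_mul, e2, Matrix.transpose_one]
  set F := B.transpose * S * B with hF
  have hT : B.transpose * N.transpose = Matrix.diagonal (fun a => (p a : ℂ)) * B.transpose := by
    rw [← Matrix.transpose_mul, h, Matrix.transpose_mul, Matrix.diagonal_transpose]
  have hF1 : Matrix.diagonal (fun a => (p a : ℂ)) * F + F * Matrix.diagonal (fun a => (p a : ℂ)) =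
      (w : ℂ) • F := by
    have h1 := congrArg (fun M => B.transpose * M * B) hS
    simp only [mul_add, add_mul, mul_smul_comm, smul_mul_assoc] at h1
    rw [← mul_assoc B.transpose, hT, ← mul_assoc B.transpose S, mul_assoc _ N, h] at h1
    rw [hF, ← h1]
    simp only [mul_assoc]
  have hF2 : F * Matrix.diagonal (fun a => ((-1 : ℂ) ^ p a)) =
      ((-1 : ℂ) ^ w) • (Matrix.diagonal (fun a => ((-1 : ℂ) ^ p a)) * F) := by
    ext i j
    have h1 := congrFun (congrFun hF1 i) j
    rw [Matrix.add_apply, Matrix.mul_diagonal, Matrix.diagonal_mul, Matrix.smul_apply,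
      smul_eq_mul] at h1
    rw [Matrix.mul_diagonal, Matrix.smul_apply, Matrix.diagonal_mul, smul_eq_mul]
    by_cases hij : w = p i + p j
    · have h2 : (-1 : ℂ) ^ w * (-1 : ℂ) ^ p i = (-1 : ℂ) ^ p j := by
        rw [hij, ← zpow_add₀ (by norm_num), show p i + p j + p i = 2 * p i + p j by ring,
          zpow_add₀ (by norm_num), zpow_mul]
        norm_num
      rw [← mul_assoc, h2, mul_comm]
    · have h2 : ((w : ℂ) - (p i + p j)) * F i j = 0 := by linear_combination -h1
      rcases mul_eq_zero.1 h2 with h3 | h3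
      · exact absurd (by exact_mod_cast sub_eq_zero.1 h3) hij
      · rw [h3, zero_mul, mul_zero, mul_zero]
  have hS' : S = B⁻¹.transpose * F * B⁻¹ := by
    rw [hF, ← mul_assoc, ← mul_assoc, e3, one_mul, mul_assoc, e1, mul_one]
  have hW : (weil B p).transpose = B⁻¹.transpose *
      Matrix.diagonal (fun a => ((-1 : ℂ) ^ p a)) * B.transpose := by
    unfold weil
    rw [Matrix.transpose_mul, Matrix.transpose_mul, Matrix.diagonal_transpose, mul_assoc]
  rw [hW]
  have h1 : S * weil B p = B⁻¹.transpose * (F * Matrix.diagonal (fun a => ((-1 : ℂ) ^ p a))) * B⁻¹ := by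
    rw [hS']
    unfold weil
    calc B⁻¹.transpose * F * B⁻¹ * (B * Matrix.diagonal (fun a => ((-1 : ℂ) ^ p a)) * B⁻¹)
        = B⁻¹.transpose * F * (B⁻¹ * B) * Matrix.diagonal (fun a => ((-1 : ℂ) ^ p a)) * B⁻¹ := by
          simp only [mul_assoc]
      _ = _ := by
          rw [e2, mul_one]
          simp only [mul_assoc]
  have h2 : B⁻¹.transpose * Matrix.diagonal (fun a => ((-1 : ℂ) ^ p a)) * B.transpose * S =
      B⁻¹.transpose * (Matrix.diagonal (fun a => ((-1 : ℂ) ^ p a)) * F) * B⁻¹ := by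
    rw [hF]
    calc B⁻¹.transpose * Matrix.diagonal (fun a => ((-1 : ℂ) ^ p a)) * B.transpose * S
        = B⁻¹.transpose * Matrix.diagonal (fun a => ((-1 : ℂ) ^ p a)) * B.transpose * S *
          (B * B⁻¹) := by rw [e1, mul_one]
      _ = _ := by simp only [mul_assoc]
  rw [h1, h2, hF2, mul_smul_comm, smul_mul_assoc]

end weil

/-- The Lie algebra is stable under conjugation by `(-1)^N`. -/
theorem weil_gH (h : IsPolarised w ψ N) {B : Matrix ι ι ℂ} {p : ι → ℤ} (hB : IsUnit B.det)
    (hNB : N * B = B * Matrix.diagonal (fun a => (p a : ℂ))) {x : Matrix ι ι ℂ}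
    (hx : x ∈ gH ℂ ψ N) : weil B p * x * weil B p ∈ gH ℂ ψ N := by
  have hW2 : weil B p * weil B p = 1 := Pool.Agent.P8H59.AD.weil_sq hB p
  have hWt : (weil B p).transpose * (weil B p).transpose = 1 := by
    rw [← Matrix.transpose_mul, hW2, Matrix.transpose_one]
  have hfw := form_weil hB hNB (form_of h)
  have hs : ((-1 : ℂ) ^ w) * ((-1 : ℂ) ^ w) = 1 := by
    rw [← zpow_add₀ (by norm_num), ← two_mul, zpow_mul]
    norm_num
  have hfw' : (weil B p).transpose * mapQ ℂ ψ = ((-1 : ℂ) ^ w) • (mapQ ℂ ψ * weil B p) := by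
    rw [hfw, smul_smul, hs, one_smul]
  refine mem_hA.2 fun m => ?_
  obtain ⟨⟨c, hc⟩, h2, h3⟩ := mem_hA.1 hx m
  refine ⟨⟨c, ?_⟩, ?_, ?_⟩
  · rw [Matrix.transpose_mul, Matrix.transpose_mul]
    have a1 : (weil B p).transpose * (x.transpose * (weil B p).transpose) * mapQ ℂ ψ =
        ((-1 : ℂ) ^ w) • ((weil B p).transpose * (x.transpose * mapQ ℂ ψ) * weil B p) := by
      rw [mul_assoc, mul_assoc, hfw', mul_smul_comm, mul_smul_comm]
      simp only [mul_assoc]
    have a2 : mapQ ℂ ψ * (weil B p * x * weil B p) =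
        ((-1 : ℂ) ^ w) • ((weil B p).transpose * (mapQ ℂ ψ * x) * weil B p) := by
      rw [← mul_assoc, ← mul_assoc, hfw, smul_mul_assoc, smul_mul_assoc]
      simp only [mul_assoc]
    rw [a1, a2, ← smul_add, ← add_mul, ← mul_add, hc, mul_smul_comm, smul_mul_assoc, hfw',
      smul_mul_assoc, mul_assoc, hW2, mul_one, smul_smul, smul_smul]
    congr 1
    linear_combination c * hs
  · rintro _ ⟨e, he, rfl⟩
    have b1 := comm_weil0 hB hNB (P := mapQ ℂ e) he
    have b2 := h2 _ ⟨e, he, rfl⟩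
    rw [← mul_assoc, ← mul_assoc, b1, mul_assoc (weil B p), b2, mul_assoc, mul_assoc, b1]
    simp only [mul_assoc]
  · rintro _ ⟨P, hP, rfl⟩
    have b1 := comm_weil hB hNB (m := m) (P := mapQ ℂ P) hP
    have b2 := h3 _ ⟨P, hP, rfl⟩
    rw [← Td_conj hW2, ← mul_assoc, ← mul_assoc, b1, mul_assoc (tens m (weil B p)), b2, mul_assoc,
      mul_assoc, b1]
    simp only [mul_assoc]

end

end Pool.Agent.P8H28.AD
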