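import Pool.Agent.P8H28.AD.Fin

/-!
# The comparison of two Hodge structures, conclusion
-/

set_option linter.unusedSectionVars false

namespace Pool.Agent.P8H28.AD

open Pool.Agent.W528.ZC Pool.Agent.P8H28.QF Pool.Agent.P8H28.SQ

noncomputable section

variable {ι : Type} [Fintype ι] [DecidableEq ι] {w : ℤ} {ψ : Matrix ι ι ℚ} {N : Matrix ι ι ℂ}

/-- The trace form is nondegenerate. -/
theorem rad_zero (h : IsPolarised w ψ N) (hψ : IsUnit ψ.det) {z : Matrix ι ι ℚ}
    (hz : z ∈ gQ ψ N) (ht : ∀ x ∈ gQ ψ N, (z * x).trace = 0) : z = 0 := by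
  obtain ⟨B, p, hB, hNB, hHR⟩ := h.basis
  obtain ⟨c, hc⟩ := sim_of_gQ hz
  have h0 : (c = 0) ∨ IsEmpty ι := by
    have h1 := ht 1 one_gQ
    rw [mul_one] at h1
    have h2 := congrArg (fun M => (ψ⁻¹ * M).trace) hc
    simp only [mul_add, mul_smul_comm] at h2
    rw [Matrix.nonsing_inv_mul _ hψ, ← mul_assoc ψ⁻¹ ψ, Matrix.nonsing_inv_mul _ hψ, one_mul,
      Matrix.trace_add, ← mul_assoc, Matrix.trace_mul_comm, ← mul_assoc,
      Matrix.mul_nonsing_inv _ hψ, one_mul, Matrix.trace_transpose, h1, add_zero,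
      Matrix.trace_smul, Matrix.trace_one, smul_eq_mul] at h2
    rcases mul_eq_zero.1 h2.symm with h3 | h3
    · exact Or.inl h3
    · right
      exact Fintype.card_eq_zero_iff.1 (by exact_mod_cast h3)
  rcases h0 with h0 | h0
  swap
  · ext i j
    exact h0.elim i
  subst h0
  refine Pool.Agent.P8H59.AD.pos ι w ψ B p hB hHR z ?_ ?_
  · have h1 : z.transpose * ψ + ψ * z = (0 : ℚ) • ψ := hc
    rwa [zero_smul] at h1
  · rw [Pool.Agent.P8H59.AD.weil_inv hB p]
    have h1 := hA_span (weil_gH h hB hNB (mapQ_hA (L := ℂ) hz))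
    have key : ∀ y ∈ Submodule.span ℂ (mapQ ℂ '' (gQ ψ N : Set (Matrix ι ι ℚ))),
        (mapQ ℂ z * y).trace = 0 := by
      intro y hy
      induction hy using Submodule.span_induction with
      | mem y hy =>
        obtain ⟨x, hx, rfl⟩ := hy
        have h2 := congrArg (algebraMap ℚ ℂ) (ht x hx)
        rw [map_zero] at h2
        rw [← h2]
        unfold mapQ
        rw [← Matrix.map_mul]
        exact (AddMonoidHom.map_trace (algebraMap ℚ ℂ).toAddMonoidHom (z * x)).symm
      | zero => rw [mul_zero, Matrix.trace_zero]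
      | add a b _ _ ha hb => rw [mul_add, Matrix.trace_add, ha, hb, add_zero]
      | smul r a _ ha => rw [mul_smul_comm, Matrix.trace_smul, ha, smul_zero]
    exact key _ h1

/-- The orthogonal decomposition. -/
theorem decomp (h : IsPolarised w ψ N) (hψ : IsUnit ψ.det) (x : Matrix ι ι ℚ) :
    ∃ y ∈ gQ ψ N, ∀ z ∈ gQ ψ N, (z * (x - y)).trace = 0 := by
  let β : LinearMap.BilinForm ℚ (Matrix ι ι ℚ) :=
    LinearMap.mk₂ ℚ (fun a b => (a * b).trace)
      (fun a b c => by rw [add_mul, Matrix.trace_add])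
      (fun a b c => by rw [smul_mul_assoc, Matrix.trace_smul])
      (fun a b c => by rw [mul_add, Matrix.trace_add])
      (fun a b c => by rw [mul_smul_comm, Matrix.trace_smul])
  have hβ : ∀ a b, β a b = (a * b).trace := fun a b => rfl
  have hrefl : β.IsRefl := fun a b hab => by rw [hβ, Matrix.trace_mul_comm]; exact hab
  have hN : (β.restrict (gQ ψ N)).Nondegenerate := by
    refine ⟨fun u hu => ?_, fun u hu => ?_⟩
    · refine Subtype.ext (rad_zero h hψ u.2 fun v hv => ?_)
      exact hu ⟨v, hv⟩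
    · refine Subtype.ext (rad_zero h hψ u.2 fun v hv => ?_)
      rw [Matrix.trace_mul_comm]
      exact hu ⟨v, hv⟩
  have hc := LinearMap.BilinForm.isCompl_orthogonal_of_restrict_nondegenerate hrefl hN
  obtain ⟨y, hy, z, hz, hyz⟩ := Submodule.mem_sup.1 (show x ∈ gQ ψ N ⊔ β.orthogonal (gQ ψ N) by
    rw [hc.sup_eq_top]
    trivial)
  refine ⟨y, hy, fun v hv => ?_⟩
  have h1 : x - y = z := by rw [← hyz, add_sub_cancel_left]
  rw [h1]
  exact hz v hv

theorem trace_br (x y z : Matrix ι ι ℚ) :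
    (x * (y * z - z * y)).trace = ((x * y - y * x) * z).trace := by
  rw [mul_sub, sub_mul, Matrix.trace_sub, Matrix.trace_sub, ← mul_assoc, ← mul_assoc,
    Matrix.trace_mul_comm (x * z) y, ← mul_assoc]

/-- If the centre is self-adjoint, it contributes only scalars. -/
theorem centre_sa (hψ : IsUnit ψ.det) {ε : ℚ}
    (hsa : ∀ z, IsHodgeEnd N z → (∀ e, IsHodgeEnd N e → e * z = z * e) → z.transpose * ψ = ψ * z) :
    ∀ z ∈ hQ ε ψ N, IsHodgeEnd N z → (∀ e, IsHodgeEnd N e → e * z = z * e) → z ∈ gQ ψ N := by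
  intro z hz2 hz1 hz4
  have hz3 := hsa _ hz1 hz4
  obtain ⟨c, hc⟩ := hz2.1
  rw [hz3, ← two_smul ℚ] at hc
  have h5 : z = (c / 2) • (1 : Matrix ι ι ℚ) := by
    have h6 := congrArg (fun M => (1 / 2 : ℚ) • (ψ⁻¹ * M)) hc
    simp only [mul_smul_comm, smul_smul] at h6
    rw [← mul_assoc, Matrix.nonsing_inv_mul _ hψ, one_mul] at h6
    rw [show (1 / 2 : ℚ) * 2 = 1 by norm_num, one_smul] at h6
    rw [h6]
    congr 1
    ring
  rw [h5]
  exact Submodule.smul_mem _ _ one_gQ

/-- If the centre is as large as possible, the two Lie algebras are the same. -/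
theorem hQ_le (h : IsPolarised w ψ N) (hψ : IsUnit ψ.det) {ε : ℚ} (hε : ε * ε = 1)
    (halt : ψ.transpose = -ε • ψ)
    (hcen : ∀ z ∈ hQ ε ψ N, IsHodgeEnd N z → (∀ e, IsHodgeEnd N e → e * z = z * e) →
      z ∈ gQ ψ N) :
    hQ ε ψ N ≤ gQ ψ N := by
  intro x hx
  obtain ⟨y, hy, ho⟩ := decomp h hψ x
  have hcomm : ∀ v ∈ gQ ψ N, v * (x - y) = (x - y) * v := by
    intro v hv
    have h1 : v * (x - y) - (x - y) * v ∈ gQ ψ N := by
      have h2 := Submodule.sub_mem _ (hA_br hv hy |> Submodule.neg_mem _)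
        (ideal Pool.Agent.P8H88.AD.prj h hψ hε halt hx hv)
      have h3 : v * (x - y) - (x - y) * v = -(v * y - y * v) - (x * v - v * x) := by
        rw [mul_sub, sub_mul]
        abel
      rw [h3]
      exact h2
    have h4 := rad_zero h hψ h1 fun u hu => by
      rw [Matrix.trace_mul_comm, trace_br]
      exact ho _ (hA_br hu hv)
    exact sub_eq_zero.1 h4
  have hz1 : IsHodgeEnd N (x - y) := by
    unfold IsHodgeEnd
    have key : ∀ n ∈ Submodule.span ℂ (mapQ ℂ '' (gQ ψ N : Set (Matrix ι ι ℚ))),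
        mapQ ℂ (x - y) * n = n * mapQ ℂ (x - y) := by
      intro n hn
      induction hn using Submodule.span_induction with
      | mem n hn =>
        obtain ⟨v, hv, rfl⟩ := hn
        unfold mapQ
        rw [← Matrix.map_mul, ← Matrix.map_mul, hcomm v hv]
      | zero => rw [mul_zero, zero_mul]
      | add a b _ _ ha hb => rw [mul_add, add_mul, ha, hb]
      | smul r a _ ha => rw [mul_smul_comm, smul_mul_assoc, ha]
    exact key N (N_span h)
  have hz2 : x - y ∈ hQ ε ψ N := Submodule.sub_mem _ hx (gQ_le_hQ ε hy)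
  have h6 := Submodule.add_mem _ (hcen _ hz2 hz1 fun e he => hz2.2.1 e he) hy
  rwa [sub_add_cancel] at h6

theorem hodge_comm_gH {K : Type} [Field K] [Algebra ℚ K] {m : ℕ}
    {P : Matrix (Fin m → ι) (Fin m → ι) K}
    (hP : P ∈ Submodule.span K (mapQ K '' {M | IsHodgeTens m N M})) {x : Matrix ι ι ℚ}
    (hx : x ∈ gQ ψ N) : P * Td m (mapQ K x) = Td m (mapQ K x) * P := by
  induction hP using Submodule.span_induction with
  | mem P hP =>
    obtain ⟨M, hM, rfl⟩ := hP
    have h1 := (mem_hA.1 hx m).2.2 M hM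
    unfold mapQ
    rw [Td_map, ← Matrix.map_mul, h1, Matrix.map_mul]
  | zero => rw [mul_zero, zero_mul]
  | add a b _ _ ha hb => rw [mul_add, add_mul, ha, hb]
  | smul c a _ ha => rw [mul_smul_comm, smul_mul_assoc, ha]

theorem end_comm_gH {K : Type} [Field K] [Algebra ℚ K] {P : Matrix ι ι K}
    (hP : P ∈ Submodule.span K (mapQ K '' {e | IsHodgeEnd N e})) {x : Matrix ι ι ℚ}
    (hx : x ∈ gQ ψ N) : P * mapQ K x = mapQ K x * P := by
  induction hP using Submodule.span_induction with
  | mem P hP =>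
    obtain ⟨M, hM, rfl⟩ := hP
    have h1 := (mem_hA.1 hx 0).2.1 M hM
    unfold mapQ
    rw [← Matrix.map_mul, h1, Matrix.map_mul]
  | zero => rw [mul_zero, zero_mul]
  | add a b _ _ ha hb => rw [mul_add, add_mul, ha, hb]
  | smul c a _ ha => rw [mul_smul_comm, smul_mul_assoc, ha]

theorem conj_eq {κ : Type} [Fintype κ] [DecidableEq κ] {K : Type} [Field K] {g g' A P : Matrix κ κ K}
    (h1 : g * g' = 1) (h2 : g' * g = 1) (h : g * A = P * g) : A = g' * P * g ∧ P = g * A * g' := by
  constructor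
  · rw [mul_assoc, ← h, ← mul_assoc, h2, one_mul]
  · rw [h, mul_assoc, h1, mul_one]

theorem comm_conj {κ : Type} [Fintype κ] {K : Type} [Field K] {g g' P y : Matrix κ κ K}
    [DecidableEq κ] (h1 : g * g' = 1) (h : P * y = y * P) :
    (g' * P * g) * (g' * y * g) = (g' * y * g) * (g' * P * g) := by
  calc (g' * P * g) * (g' * y * g) = g' * P * (g * g') * y * g := by simp only [mul_assoc]
    _ = g' * (P * y) * g := by rw [h1, mul_one]; simp only [mul_assoc]
    _ = g' * (y * P) * g := by rw [h]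
    _ = g' * y * (g * g') * P * g := by rw [h1, mul_one]; simp only [mul_assoc]
    _ = _ := by simp only [mul_assoc]

/-- **The conjugates of the elements of the second Lie algebra belong to the first one.** -/
theorem main_key {ψ' : Matrix ι ι ℚ} {N' : Matrix ι ι ℂ} (h : IsPolarised w ψ N)
    (hψ : IsUnit ψ.det)
    (hcen : ∀ z ∈ hQ (-(-1) ^ w) ψ N, IsHodgeEnd N z → (∀ e, IsHodgeEnd N e → e * z = z * e) →
      z ∈ gQ ψ N)
    {K : Type} [Field K] [Algebra ℚ K] {f g : Matrix ι ι K} (hfg : f * g = 1) {c : K} (hc : c ≠ 0)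
    (hf : f.transpose * mapQ K ψ' * f = c • mapQ K ψ)
    (h1 : ∀ e, IsHodgeEnd N e → f * mapQ K e * g ∈
      Submodule.span K (mapQ K '' {e | IsHodgeEnd N' e}))
    (h2 : ∀ M, OnSquare (-(-1) ^ w) M → IsHodgeTens 2 N M → tens 2 f * mapQ K M * tens 2 g ∈
      Submodule.span K (mapQ K '' {M | IsHodgeTens 2 N' M}))
    (x : Matrix ι ι ℚ) (hx : x ∈ gQ ψ' N') (d : ℚ) (hd : IsSim ψ' d x) :
    IsSim (mapQ K ψ) (algebraMap ℚ K d) (g * mapQ K x * f) ∧
      g * mapQ K x * f ∈ Submodule.span K (mapQ K '' (gQ ψ N : Set (Matrix ι ι ℚ))) := by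
  have hgf : g * f = 1 := mul_eq_one_comm.1 hfg
  have hT : ∀ m, tens m f * tens m g = 1 := fun m => by rw [← tens_mul, hfg, tens_one]
  have hT' : ∀ m, tens m g * tens m f = 1 := fun m => by rw [← tens_mul, hgf, tens_one]
  have hs : (-(-1 : ℚ) ^ w) * (-(-1 : ℚ) ^ w) = 1 := by
    rw [neg_mul_neg, ← zpow_add₀ (by norm_num), ← two_mul, zpow_mul]
    norm_num
  have hle := hQ_le h hψ hs (by rw [neg_neg]; exact h.symm) hcen
  have hd' : IsSim (mapQ K ψ') (algebraMap ℚ K d) (mapQ K x) := sim_mapQ hd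
  have hsim : IsSim (mapQ K ψ) (algebraMap ℚ K d) (g * mapQ K x * f) := by
    have e1 : mapQ K ψ = c⁻¹ • (f.transpose * mapQ K ψ' * f) := by
      rw [hf, smul_smul, inv_mul_cancel₀ hc, one_smul]
    have e3 : g.transpose * f.transpose = 1 := by
      rw [← Matrix.transpose_mul, hfg, Matrix.transpose_one]
    have a1 : (g * mapQ K x * f).transpose * mapQ K ψ =
        c⁻¹ • (f.transpose * ((mapQ K x).transpose * mapQ K ψ') * f) := by
      rw [e1, Matrix.transpose_mul, Matrix.transpose_mul, mul_smul_comm]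
      congr 1
      calc f.transpose * ((mapQ K x).transpose * g.transpose) *
            (f.transpose * mapQ K ψ' * f)
          = f.transpose * (mapQ K x).transpose * (g.transpose * f.transpose) *
            mapQ K ψ' * f := by simp only [mul_assoc]
        _ = _ := by rw [e3, mul_one]; simp only [mul_assoc]
    have a2 : mapQ K ψ * (g * mapQ K x * f) =
        c⁻¹ • (f.transpose * (mapQ K ψ' * mapQ K x) * f) := by
      rw [e1, smul_mul_assoc]
      congr 1
      calc f.transpose * mapQ K ψ' * f * (g * mapQ K x * f)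
          = f.transpose * mapQ K ψ' * (f * g) * mapQ K x * f := by simp only [mul_assoc]
        _ = _ := by rw [hfg, mul_one]; simp only [mul_assoc]
    unfold IsSim
    rw [a1, a2, ← smul_add, ← add_mul, ← mul_add, hd', mul_smul_comm, smul_mul_assoc, hf,
      smul_smul, smul_smul]
    congr 1
    field_simp
  refine ⟨hsim, ?_⟩
  have h3 : g * mapQ K x * f ∈ hM 2 (mapQ K ψ) (mapQ K '' {e | IsHodgeEnd N e})
      (mapQ K '' {M | OnSquare (-(-1) ^ w) M ∧ IsHodgeTens 2 N M}) := by
    refine ⟨⟨_, hsim⟩, ?_, ?_⟩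
    · rintro _ ⟨e, he, rfl⟩
      have b1 := end_comm_gH (h1 e he) hx
      have b2 := comm_conj hfg b1
      have b3 : g * (f * mapQ K e * g) * f = mapQ K e := by
        calc g * (f * mapQ K e * g) * f = (g * f) * mapQ K e * (g * f) := by
              simp only [mul_assoc]
          _ = _ := by rw [hgf, one_mul, mul_one]
      rwa [b3] at b2
    · rintro _ ⟨P, hP, rfl⟩
      have b1 := hodge_comm_gH (h2 P hP.1 hP.2) hx
      have b2 := comm_conj (hT 2) b1
      have b3 : tens 2 g * (tens 2 f * mapQ K P * tens 2 g) * tens 2 f = mapQ K P := by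
        calc tens 2 g * (tens 2 f * mapQ K P * tens 2 g) * tens 2 f =
              (tens 2 g * tens 2 f) * mapQ K P * (tens 2 g * tens 2 f) := by
              simp only [mul_assoc]
          _ = _ := by rw [hT' 2, one_mul, mul_one]
      rwa [b3, Td_conj hgf] at b2
  refine Submodule.span_mono ?_ (hM_span h3)
  exact Set.image_mono hle

end

end Pool.Agent.P8H28.AD
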