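import Pool.Agent.P8H28.AD.Defs

/-!
# Hodge classes in the tensor powers: definitions
-/

namespace Pool.Agent.P8H28.AD

open Pool.Agent.W528.ZC Pool.Agent.P8H28.QF

variable {ι : Type} [Fintype ι] [DecidableEq ι]

/-- The tensor over `K` given by a rational tensor. -/
def ofQ (K : Type) [Field K] [Algebra ℚ K] {κ : Type} (u : κ → ℚ) : κ → K :=
  fun a => algebraMap ℚ K (u a)

/-- The rational tensor `u` with `n` indices is a Hodge class of the `n`-th tensor power of a Hodge
structure of weight `w`: it is of type `(n w / 2, n w / 2)`, that is, the operator `N` multiplies it by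
`n w / 2`. -/
def IsHodgeClass (n : ℕ) (w : ℤ) (N : Matrix ι ι ℂ) (u : (Fin n → ι) → ℚ) : Prop :=
  (Td n N).mulVec (ofQ ℂ u) = ((n : ℂ) * w / 2) • ofQ ℂ u

/-- The elements of the centre of the algebra of the endomorphisms of the Hodge structure are
self-adjoint for the polarisation `ψ`. (For abelian varieties: no factors of type IV.) -/
def SelfAdjointCentre (ψ : Matrix ι ι ℚ) (N : Matrix ι ι ℂ) : Prop :=
  ∀ z, IsHodgeEnd N z → (∀ e, IsHodgeEnd N e → e * z = z * e) → z.transpose * ψ = ψ * z

/-- The centre is as large as possible: the elements `z` of the centre of the algebra of the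
endomorphisms of the Hodge structure that are infinitesimal similitudes of `ψ` commute, on the
tensors with `m` indices, with the Hodge endomorphisms, for all `m` (they belong to the Lie algebra
of the Mumford-Tate group). -/
def LargeCentre (ψ : Matrix ι ι ℚ) (N : Matrix ι ι ℂ) : Prop :=
  ∀ z, IsHodgeEnd N z → (∀ e, IsHodgeEnd N e → e * z = z * e) →
    (∃ c : ℚ, z.transpose * ψ + ψ * z = c • ψ) →
    ∀ m M, IsHodgeTens m N M → M * Td m z = Td m z * M

end Pool.Agent.P8H28.AD
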