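import Pool.Agent.P8H28.AD.Fin2
import Pool.Agent.P8H28.AD.VecDefs

/-!
# The final form
-/

set_option linter.unusedSectionVars false

namespace Pool.Agent.P8H28.AD

open Pool.Agent.W528.ZC Pool.Agent.P8H28.QF

variable {ι : Type} [Fintype ι] [DecidableEq ι]

theorem det_unit {w : ℤ} {ψ : Matrix ι ι ℚ} {N : Matrix ι ι ℂ} (h : IsPolarised w ψ N) :
    IsUnit ψ.det := by
  obtain ⟨B, p, hB, -, h2⟩ := h.basis
  rw [isUnit_iff_ne_zero]
  intro h0
  have h1 := congrArg Matrix.det h2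
  have h3 : (mapQ ℂ ψ).det = 0 := by
    have h1 := (algebraMap ℚ ℂ).map_det ψ
    rw [RingHom.mapMatrix_apply, h0, map_zero] at h1
    exact h1.symm
  rw [Matrix.det_mul, Matrix.det_mul, h3, mul_zero, zero_mul, Matrix.det_diagonal] at h1
  exact Finset.prod_ne_zero_iff.2 (fun a _ => zpow_ne_zero _ Complex.I_ne_zero) h1.symm

theorem cen_of {ψ : Matrix ι ι ℚ} {N : Matrix ι ι ℂ} (hψ : IsUnit ψ.det) {ε : ℚ}
    (hcen : SelfAdjointCentre ψ N ∨ LargeCentre ψ N) :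
    ∀ z ∈ hQ ε ψ N, IsHodgeEnd N z → (∀ e, IsHodgeEnd N e → e * z = z * e) → z ∈ gQ ψ N := by
  rcases hcen with hs | hl
  · exact centre_sa hψ hs
  · intro z hz h3 h4
    exact mem_hA.2 fun m => ⟨hz.1, h4, fun P hP => hl z h3 h4 hz.1 m P hP⟩

end Pool.Agent.P8H28.AD
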