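import Pool.Agent.P8H28.AD.Proj2

/-!
# The ideal property
-/

set_option linter.unusedSectionVars false

namespace Pool.Agent.P8H28.AD

open Pool.Agent.W528.ZC Pool.Agent.P8H28.QF Pool.Agent.P8H28.SQ

noncomputable section

variable {ι : Type} [Fintype ι] [DecidableEq ι]

section lin

variable {K : Type} [Field K]

/-- The tensor with two indices given by a matrix. -/
def tn : Matrix ι ι K →ₗ[K] ((Fin 2 → ι) → K) where
  toFun M := fun a => M (a 0) (a 1)
  map_add' _ _ := rfl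
  map_smul' _ _ := rfl

theorem tn_apply (M : Matrix ι ι K) (a : Fin 2 → ι) : tn M a = M (a 0) (a 1) := rfl

theorem tn_inj {M N : Matrix ι ι K} (h : tn M = tn N) : M = N := by
  ext i j
  exact congrFun h ![i, j]

theorem dt_tn (x M : Matrix ι ι K) : dt 2 x (tn M) = tn (x * M + M * x.transpose) := by
  funext a
  rw [dt_eq, Fin.sum_univ_two, LinearMap.add_apply, Pi.add_apply, dk_apply, dk_apply, tn_apply,
    Matrix.add_apply, Matrix.mul_apply, Matrix.mul_apply]
  congr 1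
  refine Finset.sum_congr rfl fun j _ => ?_
  change x (a 1) j * M (a 0) j = M (a 0) j * x.transpose j (a 1)
  rw [Matrix.transpose_apply, mul_comm]

/-- `x` is an infinitesimal similitude with the factor `c` of the form with the matrix `Ψ`. -/
def IsSim (Ψ : Matrix ι ι K) (c : K) (x : Matrix ι ι K) : Prop :=
  x.transpose * Ψ + Ψ * x = c • Ψ

theorem sim_inv {Ψ : Matrix ι ι K} (hΨ : IsUnit Ψ.det) {c : K} {x : Matrix ι ι K}
    (hx : IsSim Ψ c x) : Ψ⁻¹ * x.transpose = c • Ψ⁻¹ - x * Ψ⁻¹ := by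
  have h1 : Ψ⁻¹ * (x.transpose * Ψ + Ψ * x) * Ψ⁻¹ = Ψ⁻¹ * (c • Ψ) * Ψ⁻¹ := by rw [hx]
  have e1 : Ψ * Ψ⁻¹ = 1 := Matrix.mul_nonsing_inv _ hΨ
  have e2 : Ψ⁻¹ * Ψ = 1 := Matrix.nonsing_inv_mul _ hΨ
  rw [mul_add, add_mul, ← mul_assoc, mul_assoc _ Ψ Ψ⁻¹, e1, mul_one, ← mul_assoc, e2, one_mul,
    mul_smul_comm, e2, smul_mul_assoc, one_mul] at h1
  rw [eq_sub_iff_add_eq]
  exact h1

theorem dt_sim {Ψ : Matrix ι ι K} (hΨ : IsUnit Ψ.det) {c : K} {x y : Matrix ι ι K}
    (hx : IsSim Ψ c x) : dt 2 x (tn (y * Ψ⁻¹)) = tn ((x * y - y * x + c • y) * Ψ⁻¹) := by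
  rw [dt_tn, mul_assoc y, sim_inv hΨ hx]
  congr 1
  rw [mul_sub, mul_smul_comm, add_mul, sub_mul, smul_mul_assoc, ← mul_assoc, ← mul_assoc]
  abel

theorem sim_br {Ψ : Matrix ι ι K} {c c' : K} {x y : Matrix ι ι K} (hx : IsSim Ψ c x)
    (hy : IsSim Ψ c' y) : IsSim Ψ 0 (x * y - y * x) := by
  have h1 : x.transpose * Ψ = c • Ψ - Ψ * x := eq_sub_of_add_eq hx
  have h2 : y.transpose * Ψ = c' • Ψ - Ψ * y := eq_sub_of_add_eq hy
  unfold IsSim
  rw [Matrix.transpose_sub, Matrix.transpose_mul, Matrix.transpose_mul, sub_mul, mul_assoc,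
    mul_assoc, h1, h2, mul_sub, mul_sub, mul_smul_comm, mul_smul_comm, ← mul_assoc, ← mul_assoc,
    h1, h2, sub_mul, sub_mul, smul_mul_assoc, smul_mul_assoc, smul_sub, smul_sub, mul_sub,
    mul_assoc, mul_assoc, smul_comm c c', zero_smul]
  abel

theorem sim_add {Ψ : Matrix ι ι K} {c c' : K} {x y : Matrix ι ι K} (hx : IsSim Ψ c x)
    (hy : IsSim Ψ c' y) : IsSim Ψ (c + c') (x + y) := by
  unfold IsSim at *
  rw [Matrix.transpose_add, add_mul, mul_add, add_smul, ← hx, ← hy]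
  abel

theorem sim_smul {Ψ : Matrix ι ι K} {c : K} {x : Matrix ι ι K} (hx : IsSim Ψ c x) (a : K) :
    IsSim Ψ (a * c) (a • x) := by
  unfold IsSim at *
  rw [Matrix.transpose_smul, smul_mul_assoc, mul_smul_comm, ← smul_add, hx, mul_smul]

/-- The parity. -/
theorem swp_sim {Ψ : Matrix ι ι K} (hΨ : IsUnit Ψ.det) {ε : K} (hε : ε * ε = 1)
    (halt : Ψ.transpose = -ε • Ψ) {y : Matrix ι ι K} (hy : IsSim Ψ 0 y) (a : Fin 2 → ι) :
    tn (y * Ψ⁻¹) (swp a) = ε * tn (y * Ψ⁻¹) a := by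
  have h1 : (y * Ψ⁻¹).transpose = ε • (y * Ψ⁻¹) := by
    have h2 := sim_inv hΨ hy
    rw [zero_smul, zero_sub] at h2
    have h3 : Ψ.transpose⁻¹ = -ε • Ψ⁻¹ := by
      rw [halt]
      apply Matrix.inv_eq_left_inv
      rw [smul_mul_smul_comm, neg_mul_neg, hε, Matrix.nonsing_inv_mul _ hΨ, one_smul]
    rw [Matrix.transpose_mul, Matrix.transpose_nonsing_inv, h3, smul_mul_assoc, h2, smul_neg,
      neg_smul, neg_neg]
  exact congrFun (congrFun h1 (a 0)) (a 1)

end lin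

/-- The projection to the symmetric or alternating tensors. -/
def sy (ε : ℚ) : Module.End ℚ ((Fin 2 → ι) → ℚ) where
  toFun u a := (1 / 2) * (u a + ε * u (swp a))
  map_add' u v := by
    funext a
    simp only [Pi.add_apply]
    ring
  map_smul' c u := by
    funext a
    simp only [Pi.smul_apply, smul_eq_mul, RingHom.id_apply]
    ring

theorem swp_swp (a : Fin 2 → ι) : swp (swp a) = a := by
  funext i
  fin_cases i <;> rfl

theorem sy_eq {ε : ℚ} (hε : ε * ε = 1) {u : (Fin 2 → ι) → ℚ} (hu : ∀ a, u (swp a) = ε * u a) :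
    sy ε u = u := by
  funext a
  change (1 / 2) * (u a + ε * u (swp a)) = u a
  rw [hu, ← mul_assoc, hε]
  ring

theorem sy_swp {ε : ℚ} (hε : ε * ε = 1) (u : (Fin 2 → ι) → ℚ) :
    sy ε (fun a => u (swp a)) = ε • sy ε u := by
  funext a
  change (1 / 2) * (u (swp a) + ε * u (swp (swp a))) = ε * ((1 / 2) * (u a + ε * u (swp a)))
  rw [swp_swp]
  linear_combination (-(1 / 2) * u (swp a)) * hε

theorem sy_matrix (ε : ℚ) (a b : Fin 2 → ι) : LinearMap.toMatrix' (sy (ι := ι) ε) a b =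
    (1 / 2) * ((if a = b then 1 else 0) + ε * (if swp a = b then 1 else 0)) := by
  rw [LinearMap.toMatrix'_apply]
  change (1 / 2) * ((Pi.single b 1 : (Fin 2 → ι) → ℚ) a + ε * (Pi.single b 1 : _ → ℚ) (swp a)) = _
  rw [Pi.single_apply, Pi.single_apply]

/-- The exchange commutes with the derivations. -/
theorem dt_swp {K : Type} [Field K] (x : Matrix ι ι K) (u : (Fin 2 → ι) → K) :
    (fun a => dt 2 x u (swp a)) = dt 2 x fun a => u (swp a) := by
  funext a
  rw [dt_eq, Fin.sum_univ_two, LinearMap.add_apply, Pi.add_apply, LinearMap.add_apply,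
    Pi.add_apply, dk_apply, dk_apply, dk_apply, dk_apply, add_comm]
  have e0 : ∀ j, Function.update (swp a) 1 j = swp (Function.update a 0 j) := by
    intro j
    funext i
    fin_cases i <;> rfl
  have e1 : ∀ j, Function.update (swp a) 0 j = swp (Function.update a 1 j) := by
    intro j
    funext i
    fin_cases i <;> rfl
  simp only [e0, e1]
  rfl

end

end Pool.Agent.P8H28.AD
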