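import Pool.Agent.P8H28.AD.Ide

/-!
# The ideal property, second part
-/

set_option linter.unusedSectionVars false

namespace Pool.Agent.P8H28.AD

open Pool.Agent.W528.ZC Pool.Agent.P8H28.QF Pool.Agent.P8H28.SQ

noncomputable section

variable {ι : Type} [Fintype ι] [DecidableEq ι] {w : ℤ} {ψ : Matrix ι ι ℚ} {N : Matrix ι ι ℂ}

theorem toM_mul' {κ : Type} [Fintype κ] [DecidableEq κ] {K : Type} [Field K]
    (P Q : Module.End K (κ → K)) : LinearMap.toMatrix' (P * Q) =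
      LinearMap.toMatrix' P * LinearMap.toMatrix' Q := LinearMap.toMatrix'_mul P Q

theorem sy_complex (ε : ℚ) (z : (Fin 2 → ι) → ℂ) :
    (mapQ ℂ (LinearMap.toMatrix' (sy (ι := ι) ε))).mulVec z =
      fun a => (1 / 2) * (z a + (algebraMap ℚ ℂ ε) * z (swp a)) := by
  funext a
  change ∑ b, mapQ ℂ (LinearMap.toMatrix' (sy (ι := ι) ε)) a b * z b = _
  have h1 : ∀ b, mapQ ℂ (LinearMap.toMatrix' (sy (ι := ι) ε)) a b * z b =
      (1 / 2) * ((if a = b then z b else 0) + algebraMap ℚ ℂ ε * (if swp a = b then z b else 0)) := by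
    intro b
    unfold mapQ
    rw [Matrix.map_apply, sy_matrix]
    split_ifs <;> simp <;> ring
  rw [Finset.sum_congr rfl fun b _ => h1 b, ← Finset.mul_sum, Finset.sum_add_distrib,
    ← Finset.mul_sum, Finset.sum_ite_eq, Finset.sum_ite_eq, if_pos (Finset.mem_univ _),
    if_pos (Finset.mem_univ _)]

theorem sy_hodge (ε : ℚ) : IsHodgeTens 2 N (LinearMap.toMatrix' (sy (ι := ι) ε)) := by
  unfold IsHodgeTens
  apply Matrix.toLin'.injective
  rw [Matrix.toLin'_mul, Matrix.toLin'_mul]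
  refine LinearMap.ext fun y => ?_
  rw [LinearMap.comp_apply, LinearMap.comp_apply]
  unfold Td
  rw [Matrix.toLin'_toMatrix', Matrix.toLin'_apply, Matrix.toLin'_apply, sy_complex, sy_complex]
  have h1 : (fun a => (1 / 2) * (y a + algebraMap ℚ ℂ ε * y (swp a))) =
      (1 / 2 : ℂ) • (y + (algebraMap ℚ ℂ ε) • fun a => y (swp a)) := rfl
  rw [h1, map_smul, map_add, map_smul, ← dt_swp]
  rfl

/-- The projection in the symmetric or exterior square. -/
theorem exists_square_proj (prj : S_PRJ) (h : IsPolarised w ψ N) {ε : ℚ} (hε : ε * ε = 1)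
    (U : Submodule ℚ ((Fin 2 → ι) → ℚ)) (hs : ∀ u ∈ U, ∀ a, u (swp a) = ε * u a)
    (hU : ∀ u ∈ U, dt 2 N (oc u) ∈ UC U) :
    ∃ M : Matrix (Fin 2 → ι) (Fin 2 → ι) ℚ, OnSquare ε M ∧ IsHodgeTens 2 N M ∧
      (∀ v, M.mulVec v ∈ U) ∧ ∀ u ∈ U, M.mulVec u = u := by
  obtain ⟨Q, hQ1, hQ2, hQ3⟩ := exists_hodge_proj prj h U hU
  refine ⟨LinearMap.toMatrix' (Q * sy ε), fun a b => ⟨?_, ?_⟩, ?_, fun v => ?_, fun u hu => ?_⟩
  · rw [LinearMap.toMatrix'_apply, LinearMap.toMatrix'_apply]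
    exact hs _ (hQ1 _) a
  · rw [LinearMap.toMatrix'_apply, LinearMap.toMatrix'_apply]
    have h1 : (Pi.single (swp b) 1 : (Fin 2 → ι) → ℚ) =
        fun a => (Pi.single b 1 : (Fin 2 → ι) → ℚ) (swp a) := by
      funext a
      rw [Pi.single_apply, Pi.single_apply]
      have h2 : a = swp b ↔ swp a = b := by
        constructor
        · rintro rfl
          exact swp_swp b
        · rintro rfl
          exact (swp_swp a).symm
      by_cases h3 : a = swp b
      · rw [if_pos h3, if_pos (h2.1 h3)]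
      · rw [if_neg h3, if_neg fun h4 => h3 (h2.2 h4)]
    rw [h1, Module.End.mul_apply, sy_swp hε, map_smul]
    rfl
  · unfold IsHodgeTens
    rw [toM_mul']
    have h1 : mapQ ℂ (LinearMap.toMatrix' Q * LinearMap.toMatrix' (sy (ι := ι) ε)) =
        mapQ ℂ (LinearMap.toMatrix' Q) * mapQ ℂ (LinearMap.toMatrix' (sy (ι := ι) ε)) := by
      unfold mapQ
      rw [Matrix.map_mul]
    rw [h1, mul_assoc, sy_hodge (N := N) ε, ← mul_assoc, hQ3, mul_assoc]
  · rw [← Matrix.toLin'_apply, Matrix.toLin'_toMatrix', Module.End.mul_apply]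
    exact hQ1 _
  · rw [← Matrix.toLin'_apply, Matrix.toLin'_toMatrix', Module.End.mul_apply, sy_eq hε (hs u hu),
      hQ2 u hu]

/-- The tensor of an operator. -/
def Lq (ψ : Matrix ι ι ℚ) : Matrix ι ι ℚ →ₗ[ℚ] ((Fin 2 → ι) → ℚ) :=
  tn ∘ₗ (LinearMap.mulRight ℚ (ψ⁻¹))

theorem Lq_apply (ψ y : Matrix ι ι ℚ) : Lq ψ y = tn (y * ψ⁻¹) := rfl

theorem Lq_inj (hψ : IsUnit ψ.det) {y z : Matrix ι ι ℚ} (h : Lq ψ y = Lq ψ z) : y = z := by
  rw [Lq_apply, Lq_apply] at h
  have h1 := congrArg (fun M => M * ψ) (tn_inj h)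
  rw [mul_assoc, mul_assoc, Matrix.nonsing_inv_mul _ hψ, mul_one, mul_one] at h1
  exact h1

/-- The infinitesimal isometries. -/
def spQ (ψ : Matrix ι ι ℚ) : Submodule ℚ (Matrix ι ι ℚ) where
  carrier := {y | IsSim ψ 0 y}
  zero_mem' := by
    change IsSim ψ 0 0
    unfold IsSim
    rw [Matrix.transpose_zero, zero_mul, mul_zero, add_zero, zero_smul]
  add_mem' := by
    intro a b ha hb
    have h := sim_add ha hb
    rwa [add_zero] at h
  smul_mem' := by
    intro c a ha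
    have h := sim_smul ha c
    rwa [mul_zero] at h

theorem mapQ_inv (hψ : IsUnit ψ.det) : (mapQ ℂ ψ)⁻¹ = mapQ ℂ ψ⁻¹ := by
  apply Matrix.inv_eq_left_inv
  unfold mapQ
  rw [← Matrix.map_mul, Matrix.nonsing_inv_mul _ hψ, Matrix.map_one _ (map_zero _) (map_one _)]

theorem mapQ_det {K : Type} [Field K] [Algebra ℚ K] (hψ : IsUnit ψ.det) :
    IsUnit (mapQ K ψ).det := by
  have h1 := (algebraMap ℚ K).map_det ψ
  rw [RingHom.mapMatrix_apply] at h1
  unfold mapQ
  rw [← h1]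
  exact hψ.map _

theorem sim_mapQ {K : Type} [Field K] [Algebra ℚ K] {c : ℚ} {x : Matrix ι ι ℚ}
    (hx : IsSim ψ c x) : IsSim (mapQ K ψ) (algebraMap ℚ K c) (mapQ K x) := by
  have h3 := congrArg (fun M : Matrix ι ι ℚ => M.map (algebraMap ℚ K)) hx
  simp only [Matrix.map_add _ (map_add _), Matrix.map_mul] at h3
  unfold IsSim mapQ
  rw [← Matrix.transpose_map, h3]
  ext i j
  simp only [Matrix.map_apply, Matrix.smul_apply, smul_eq_mul, map_mul]

theorem crd_sim {L : Type} [Field L] [Algebra ℚ L] (φ : L →ₗ[ℚ] ℚ) {c : L} {x : Matrix ι ι L}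
    (hx : IsSim (mapQ L ψ) c x) : IsSim ψ (φ c) (crd φ x) := by
  have h3 := congrArg (crd φ) hx
  rw [crd_add] at h3
  unfold mapQ at h3
  rw [crd_mul_right, crd_mul_left, crd_smul, crd_transpose] at h3
  exact h3

theorem Td_one {K : Type} [Field K] (m : ℕ) : Td m (1 : Matrix ι ι K) = (m : K) • 1 := by
  have h1 : dt m (1 : Matrix ι ι K) = (m : K) • (1 : Module.End K ((Fin m → ι) → K)) := by
    refine LinearMap.ext fun u => funext fun a => ?_
    rw [dt_eq, LinearMap.sum_apply, Finset.sum_apply]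
    have h2 : ∀ k, dk k (1 : Matrix ι ι K) u a = u a := by
      intro k
      rw [dk_apply, Finset.sum_eq_single (a k)]
      · rw [Matrix.one_apply_eq, one_mul, Function.update_eq_self]
      · intro j _ hj
        rw [Matrix.one_apply_ne (Ne.symm hj), zero_mul]
      · intro h
        exact absurd (Finset.mem_univ _) h
    rw [Finset.sum_congr rfl fun k _ => h2 k, Finset.sum_const, Finset.card_univ, Fintype.card_fin,
      nsmul_eq_mul]
    rfl
  unfold Td
  rw [h1, map_smul]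
  congr 1
  exact LinearMap.toMatrix'_one

theorem one_gQ : (1 : Matrix ι ι ℚ) ∈ gQ ψ N := by
  refine mem_hA.2 fun m => ⟨⟨2, ?_⟩, fun e _ => ?_, fun P _ => ?_⟩
  · rw [Matrix.transpose_one, one_mul, mul_one, two_smul]
  · rw [mul_one, one_mul]
  · rw [Td_one, mul_smul_comm, smul_mul_assoc, mul_one, one_mul]

theorem sim_of_gQ {y : Matrix ι ι ℚ} (hy : y ∈ gQ ψ N) : ∃ c, IsSim ψ c y :=
  (mem_hA.1 hy 0).1

/-- The larger Lie algebra. -/
def hQ (ε : ℚ) (ψ : Matrix ι ι ℚ) (N : Matrix ι ι ℂ) : Submodule ℚ (Matrix ι ι ℚ) :=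
  hM 2 ψ {e | IsHodgeEnd N e} {M | OnSquare ε M ∧ IsHodgeTens 2 N M}

theorem gQ_le_hQ (ε : ℚ) : gQ ψ N ≤ hQ ε ψ N := by
  intro x hx
  obtain ⟨h1, h2, h3⟩ := mem_hA.1 hx 2
  exact ⟨h1, h2, fun P hP => h3 P hP.2⟩

/-- **The ideal property.** -/
theorem ideal (prj : S_PRJ) (h : IsPolarised w ψ N) (hψ : IsUnit ψ.det) {ε : ℚ} (hε : ε * ε = 1)
    (halt : ψ.transpose = -ε • ψ) {x y : Matrix ι ι ℚ} (hx : x ∈ hQ ε ψ N) (hy : y ∈ gQ ψ N) :
    x * y - y * x ∈ gQ ψ N := by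
  have h0 : ∀ y ∈ gQ ψ N ⊓ spQ ψ, x * y - y * x ∈ gQ ψ N := by
    intro y hy
    obtain ⟨⟨c, hc⟩, -, hx3⟩ := hx
    obtain ⟨M, hM1, hM2, hM3, hM4⟩ := exists_square_proj prj h hε
      ((gQ ψ N ⊓ spQ ψ).map (Lq ψ))
      (by
        rintro _ ⟨z, hz, rfl⟩ a
        exact swp_sim hψ hε halt hz.2 a)
      (by
        rintro _ ⟨z, hz, rfl⟩ φ
        have e1 : oc (Lq ψ z) = tn (mapQ ℂ z * (mapQ ℂ ψ)⁻¹) := by
          rw [mapQ_inv hψ]
          unfold mapQ
          rw [← Matrix.map_mul]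
          rfl
        have hz1 := mapQ_hA (L := ℂ) hz.1
        have hz2 : IsSim (mapQ ℂ ψ) 0 (mapQ ℂ z) := by
          have h1 := sim_mapQ (K := ℂ) hz.2
          rwa [map_zero] at h1
        rw [e1, dt_sim (mapQ_det hψ) (form_of h), mapQ_inv hψ]
        refine ⟨crd φ (N * mapQ ℂ z - mapQ ℂ z * N + (w : ℂ) • mapQ ℂ z), ⟨crd_hA
          (Submodule.add_mem _ (hA_br (N_mem h) hz1) (Submodule.smul_mem _ _ hz1)) φ, ?_⟩, ?_⟩
        · have h1 := sim_add (sim_br (form_of h) hz2) (sim_smul hz2 (w : ℂ))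
          rw [mul_zero, add_zero] at h1
          have h2 := crd_sim φ h1
          rwa [map_zero] at h2
        · rw [Lq_apply, ← crd_mul_right]
          rfl)
    have h2 : dt 2 x (Lq ψ y) ∈ (gQ ψ N ⊓ spQ ψ).map (Lq ψ) := by
      have h3 := congrArg (fun P : Matrix _ _ ℚ => P.mulVec (Lq ψ y)) (hx3 M ⟨hM1, hM2⟩)
      simp only [← Matrix.mulVec_mulVec] at h3
      rw [hM4 _ ⟨y, hy, rfl⟩] at h3
      have h4 : (Td 2 x).mulVec (Lq ψ y) = dt 2 x (Lq ψ y) := by
        unfold Td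
        rw [← Matrix.toLin'_apply, Matrix.toLin'_toMatrix']
      rw [h4] at h3
      rw [← h3]
      exact hM3 _
    rw [Lq_apply, dt_sim hψ hc] at h2
    obtain ⟨z, hz, h3⟩ := h2
    have h4 : z = x * y - y * x + c • y := Lq_inj hψ h3
    have h5 : x * y - y * x = z - c • y := by rw [h4, add_sub_cancel_right]
    rw [h5]
    exact Submodule.sub_mem _ hz.1 (Submodule.smul_mem _ _ hy.1)
  obtain ⟨c, hc⟩ := sim_of_gQ hy
  have h2 := h0 (y - (c / 2) • 1) ⟨Submodule.sub_mem _ hy (Submodule.smul_mem _ _ one_gQ), by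
    change IsSim ψ 0 (y - (c / 2) • 1)
    have h3 : IsSim ψ 2 (1 : Matrix ι ι ℚ) := by
      unfold IsSim
      rw [Matrix.transpose_one, one_mul, mul_one, two_smul]
    have h4 := sim_add hc (sim_smul h3 (-(c / 2)))
    rw [show c + -(c / 2) * 2 = 0 by ring, neg_smul, ← sub_eq_add_neg] at h4
    exact h4⟩
  have h3 : x * (y - (c / 2) • 1) - (y - (c / 2) • 1) * x = x * y - y * x := by
    rw [mul_sub, sub_mul, mul_smul_comm, smul_mul_assoc, mul_one, one_mul]
    abel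
  rwa [h3] at h2

end

end Pool.Agent.P8H28.AD
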