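import Pool.Agent.P8H28.AD.Eig

/-!
# Projections to stable rational subspaces
-/

set_option linter.unusedSectionVars false

namespace Pool.Agent.P8H28.AD

open Pool.Agent.W528.ZC Pool.Agent.P8H28.QF Pool.Agent.P8H28.SQ

noncomputable section

section vec

variable {κ : Type} [Fintype κ] [DecidableEq κ]

/-- The complex vector given by a rational one. -/
def oc (u : κ → ℚ) : κ → ℂ := fun a => (algebraMap ℚ ℂ) (u a)

/-- The coordinates of a complex vector. -/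
def cv (φ : ℂ →ₗ[ℚ] ℚ) (y : κ → ℂ) : κ → ℚ := fun a => φ (y a)

theorem cv_add (φ : ℂ →ₗ[ℚ] ℚ) (y z : κ → ℂ) : cv φ (y + z) = cv φ y + cv φ z :=
  funext fun _ => map_add φ _ _

theorem cv_sub (φ : ℂ →ₗ[ℚ] ℚ) (y z : κ → ℂ) : cv φ (y - z) = cv φ y - cv φ z :=
  funext fun _ => map_sub φ _ _

theorem cv_oc (φ : ℂ →ₗ[ℚ] ℚ) (u : κ → ℚ) : cv φ (oc u) = φ 1 • u := by
  funext a
  change φ (algebraMap ℚ ℂ (u a)) = φ 1 * u a
  rw [← mul_one (algebraMap ℚ ℂ (u a)), lin_smul, mul_comm]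

theorem cv_mul (φ : ℂ →ₗ[ℚ] ℚ) (M : Matrix κ κ ℚ) (y : κ → ℂ) :
    cv φ ((mapQ ℂ M).mulVec y) = M.mulVec (cv φ y) := by
  funext a
  change φ (∑ b, mapQ ℂ M a b * y b) = ∑ b, M a b * φ (y b)
  rw [map_sum]
  exact Finset.sum_congr rfl fun b _ => lin_smul φ _ _

/-- The complex subspace given by a rational subspace. -/
def UC (U : Submodule ℚ (κ → ℚ)) : Submodule ℂ (κ → ℂ) where
  carrier := {y | ∀ φ : ℂ →ₗ[ℚ] ℚ, cv φ y ∈ U}
  zero_mem' φ := by
    have h : cv φ (0 : κ → ℂ) = 0 := funext fun _ => map_zero φ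
    rw [h]
    exact U.zero_mem
  add_mem' ha hb φ := by
    rw [cv_add]
    exact U.add_mem (ha φ) (hb φ)
  smul_mem' c y hy φ := hy (φ ∘ₗ LinearMap.mulLeft ℚ c)

theorem mem_UC {U : Submodule ℚ (κ → ℚ)} {y : κ → ℂ} : y ∈ UC U ↔ ∀ φ, cv φ y ∈ U := Iff.rfl

theorem oc_mem {U : Submodule ℚ (κ → ℚ)} {u : κ → ℚ} (hu : u ∈ U) : oc u ∈ UC U := by
  intro φ
  rw [cv_oc]
  exact U.smul_mem _ hu

theorem span_cv (y : κ → ℂ) :
    y ∈ Submodule.span ℂ {z | ∃ φ : ℂ →ₗ[ℚ] ℚ, z = oc (cv φ y)} := by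
  have h1 := mem_span_crd (k := ℚ) (Matrix.of fun (a : κ) (_ : Fin 1) => y a)
  let f : Matrix κ (Fin 1) ℂ →ₗ[ℂ] (κ → ℂ) :=
    { toFun := fun M a => M a 0
      map_add' := fun _ _ => rfl
      map_smul' := fun _ _ => rfl }
  have h2 := Submodule.mem_map_of_mem (f := f) h1
  rw [Submodule.map_span] at h2
  refine Submodule.span_mono ?_ h2
  rintro _ ⟨_, ⟨φ, rfl⟩, rfl⟩
  exact ⟨φ, rfl⟩

theorem UC_span {U : Submodule ℚ (κ → ℚ)} {y : κ → ℂ} (hy : y ∈ UC U) :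
    y ∈ Submodule.span ℂ (oc '' (U : Set (κ → ℚ))) := by
  refine Submodule.span_mono ?_ (span_cv y)
  rintro _ ⟨φ, rfl⟩
  exact ⟨_, hy φ, rfl⟩

theorem dual_zero {z : ℂ} (h : ∀ φ : ℂ →ₗ[ℚ] ℚ, φ z = 0) : z = 0 :=
  (Module.forall_dual_apply_eq_zero_iff ℚ z).1 h

theorem cv_zero {y : κ → ℂ} (h : ∀ φ : ℂ →ₗ[ℚ] ℚ, cv φ y = 0) : y = 0 :=
  funext fun a => dual_zero fun φ => congrFun (h φ) a

/-- The bilinear form of a matrix. -/
def bl {K : Type} [Field K] (S : Matrix κ κ K) (u v : κ → K) : K := u ⬝ᵥ (S.mulVec v)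

theorem bl_add_left {K : Type} [Field K] (S : Matrix κ κ K) (u u' v : κ → K) :
    bl S (u + u') v = bl S u v + bl S u' v := add_dotProduct _ _ _

theorem bl_sub_left {K : Type} [Field K] (S : Matrix κ κ K) (u u' v : κ → K) :
    bl S (u - u') v = bl S u v - bl S u' v := sub_dotProduct _ _ _

theorem bl_smul_left {K : Type} [Field K] (S : Matrix κ κ K) (c : K) (u v : κ → K) :
    bl S (c • u) v = c * bl S u v := smul_dotProduct _ _ _

theorem bl_add_right {K : Type} [Field K] (S : Matrix κ κ K) (u v v' : κ → K) :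
    bl S u (v + v') = bl S u v + bl S u v' := by
  unfold bl
  rw [Matrix.mulVec_add, dotProduct_add]

theorem bl_smul_right {K : Type} [Field K] (S : Matrix κ κ K) (c : K) (u v : κ → K) :
    bl S u (c • v) = c * bl S u v := by
  unfold bl
  rw [Matrix.mulVec_smul, dotProduct_smul, smul_eq_mul]

theorem cv_bl (φ : ℂ →ₗ[ℚ] ℚ) (S : Matrix κ κ ℚ) (y : κ → ℂ) (u : κ → ℚ) :
    φ (bl (mapQ ℂ S) y (oc u)) = bl S (cv φ y) u := by
  have h1 : (mapQ ℂ S).mulVec (oc u) = oc (S.mulVec u) := by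
    funext a
    change ∑ b, algebraMap ℚ ℂ (S a b) * algebraMap ℚ ℂ (u b) =
      algebraMap ℚ ℂ (∑ b, S a b * u b)
    rw [map_sum]
    exact Finset.sum_congr rfl fun b _ => (map_mul _ _ _).symm
  unfold bl
  rw [h1]
  change φ (∑ a, y a * algebraMap ℚ ℂ (S.mulVec u a)) = ∑ a, φ (y a) * S.mulVec u a
  rw [map_sum]
  exact Finset.sum_congr rfl fun a _ => lin_smul' φ _ _

theorem cv_bl' (φ : ℂ →ₗ[ℚ] ℚ) (S : Matrix κ κ ℚ) (u : κ → ℚ) (y : κ → ℂ) :
    φ (bl (mapQ ℂ S) (oc u) y) = bl S u (cv φ y) := by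
  unfold bl
  rw [← cv_mul]
  change φ (∑ a, algebraMap ℚ ℂ (u a) * ((mapQ ℂ S).mulVec y) a) = ∑ a, u a * φ _
  rw [map_sum]
  exact Finset.sum_congr rfl fun a _ => lin_smul φ _ _

/-- The general statement: projection to a subspace with a nondegenerate form. -/
theorem exists_projection (S : Matrix κ κ ℚ) (hS : S.transpose = S) (U : Submodule ℚ (κ → ℚ))
    (hnd : ∀ u ∈ U, (∀ v ∈ U, bl S u v = 0) → u = 0) :
    ∃ Q : Module.End ℚ (κ → ℚ), (∀ v, Q v ∈ U) ∧ (∀ u ∈ U, Q u = u) ∧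
      ∀ z, ∀ v ∈ U, bl S (Q z) v = bl S z v := by
  let β : LinearMap.BilinForm ℚ (κ → ℚ) := Matrix.toBilin' S
  have hβ : ∀ u v, β u v = bl S u v := fun u v => by
    change Matrix.toBilin' S u v = u ⬝ᵥ S.mulVec v
    rw [Matrix.toBilin'_apply']
  have hsymm : ∀ u v, bl S u v = bl S v u := by
    intro u v
    unfold bl
    rw [Matrix.dotProduct_mulVec, ← Matrix.mulVec_transpose, hS, dotProduct_comm]
  have hrefl : β.IsRefl := fun u v h => by rw [hβ, hsymm, ← hβ]; exact h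
  have hN : (β.restrict U).Nondegenerate := by
    refine ⟨fun u hu => ?_, fun u hu => ?_⟩
    · refine Subtype.ext (hnd u u.2 fun v hv => ?_)
      rw [← hβ]
      exact hu ⟨v, hv⟩
    · refine Subtype.ext (hnd u u.2 fun v hv => ?_)
      rw [hsymm, ← hβ]
      exact hu ⟨v, hv⟩
  have hc := LinearMap.BilinForm.isCompl_orthogonal_of_restrict_nondegenerate hrefl hN
  refine ⟨U.subtype ∘ₗ Submodule.projectionOnto _ _ hc, fun v => ?_, fun u hu => ?_,
    fun z v hv => ?_⟩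
  · exact (Submodule.projectionOnto _ _ hc v).2
  · exact congrArg Subtype.val (Submodule.projectionOnto_apply_left hc ⟨u, hu⟩)
  · have h1 : z - (Submodule.projectionOnto _ _ hc z : κ → ℚ) ∈ β.orthogonal U := by
      have h3 : z - (Submodule.projectionOnto _ _ hc z : κ → ℚ) ∈
          LinearMap.ker (Submodule.projectionOnto _ _ hc) := by
        rw [LinearMap.mem_ker, map_sub]
        refine sub_eq_zero.2 ?_
        exact (Submodule.projectionOnto_apply_left hc (Submodule.projectionOnto _ _ hc z)).symm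
      exact (Submodule.ker_projectionOnto hc).le h3
    have h2 := h1 v hv
    change β v (z - _) = 0 at h2
    rw [hβ, hsymm, bl_sub_left, sub_eq_zero] at h2
    exact h2.symm

end vec

end

end Pool.Agent.P8H28.AD
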