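import Pool.Agent.P8H28.AD.Proj

/-!
# The projection is an endomorphism of the Hodge structure
-/

set_option linter.unusedSectionVars false

namespace Pool.Agent.P8H28.AD

open Pool.Agent.W528.ZC Pool.Agent.P8H28.QF Pool.Agent.P8H28.SQ

noncomputable section

variable {ι : Type} [Fintype ι] [DecidableEq ι] {w : ℤ} {ψ : Matrix ι ι ℚ} {N : Matrix ι ι ℂ}

theorem tens_transpose {m : ℕ} {K : Type} [Field K] (M : Matrix ι ι K) :
    (tens m M).transpose = tens m M.transpose := rfl

theorem tens_mapQ {m : ℕ} {K : Type} [Field K] [Algebra ℚ K] (M : Matrix ι ι ℚ) :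
    tens m (mapQ K M) = mapQ K (tens m M) := by
  ext a b
  unfold mapQ
  rw [tens_apply, Matrix.map_apply, tens_apply, map_prod]
  rfl

theorem tens_smul {m : ℕ} {K : Type} [Field K] (c : K) (M : Matrix ι ι K) :
    tens m (c • M) = c ^ m • tens m M := by
  ext a b
  rw [tens_apply, Matrix.smul_apply, tens_apply, smul_eq_mul]
  simp only [Matrix.smul_apply, smul_eq_mul]
  rw [Finset.prod_mul_distrib, Finset.prod_const, Finset.card_univ, Fintype.card_fin]

/-- Pure tensors and the bilinear form. -/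
theorem bl_pt {K : Type} [Field K] {m : ℕ} (S : Matrix ι ι K) (v v' : Fin m → ι → K) :
    bl (tens m S) (pt v) (pt v') = ∏ i, bl S (v i) (v' i) := by
  unfold bl
  rw [tens_pt]
  unfold dotProduct
  rw [Finset.prod_univ_sum, Fintype.piFinset_univ]
  refine Finset.sum_congr rfl fun a _ => ?_
  rw [pt_apply, pt_apply, ← Finset.prod_mul_distrib]

/-- The action of a similitude. -/
theorem bl_dt {K : Type} [Field K] {S x : Matrix ι ι K} {c : K}
    (hx : x.transpose * S + S * x = c • S) (u v : (Fin 2 → ι) → K) :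
    bl (tens 2 S) (dt 2 x u) v + bl (tens 2 S) u (dt 2 x v) = (2 * c) * bl (tens 2 S) u v := by
  have hx' : ∀ a b : ι → K, bl S (x.mulVec a) b + bl S a (x.mulVec b) = c * bl S a b := by
    intro a b
    unfold bl
    have h1 := congrArg (fun M : Matrix ι ι K => a ⬝ᵥ M.mulVec b) hx
    simp only [Matrix.add_mulVec, dotProduct_add, ← Matrix.mulVec_mulVec, Matrix.smul_mulVec,
      dotProduct_smul, smul_eq_mul] at h1
    rw [← h1]
    congr 1
    rw [Matrix.dotProduct_mulVec a, ← Matrix.mulVec_transpose, Matrix.transpose_transpose]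
  have key : ∀ v v' : Fin 2 → ι → K, bl (tens 2 S) (dt 2 x (pt v)) (pt v') +
      bl (tens 2 S) (pt v) (dt 2 x (pt v')) = (2 * c) * bl (tens 2 S) (pt v) (pt v') := by
    intro v v'
    rw [dt_pt, dt_pt, Fin.sum_univ_two, Fin.sum_univ_two, bl_add_left, bl_add_right, bl_pt, bl_pt,
      bl_pt, bl_pt, bl_pt, Fin.prod_univ_two, Fin.prod_univ_two, Fin.prod_univ_two,
      Fin.prod_univ_two, Fin.prod_univ_two]
    simp only [Function.update_self, Function.update_of_ne (show (1 : Fin 2) ≠ 0 by decide),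
      Function.update_of_ne (show (0 : Fin 2) ≠ 1 by decide)]
    linear_combination (bl S (v 1) (v' 1)) * hx' (v 0) (v' 0) +
      (bl S (v 0) (v' 0)) * hx' (v 1) (v' 1)
  have h1 : ∀ u ∈ Submodule.span K (Set.range fun v : Fin 2 → ι → K => pt v),
      ∀ v ∈ Submodule.span K (Set.range fun v : Fin 2 → ι → K => pt v),
      bl (tens 2 S) (dt 2 x u) v + bl (tens 2 S) u (dt 2 x v) = (2 * c) * bl (tens 2 S) u v := by
    intro u hu v hv
    induction hu using Submodule.span_induction with
    | mem u hu =>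
      obtain ⟨a, rfl⟩ := hu
      induction hv using Submodule.span_induction with
      | mem v hv =>
        obtain ⟨b, rfl⟩ := hv
        exact key a b
      | zero =>
        rw [map_zero]
        unfold bl
        rw [Matrix.mulVec_zero, dotProduct_zero, dotProduct_zero]
        ring
      | add a' b _ _ ha hb =>
        rw [map_add, bl_add_right, bl_add_right, bl_add_right]
        linear_combination ha + hb
      | smul r a' _ ha =>
        rw [map_smul, bl_smul_right, bl_smul_right, bl_smul_right]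
        linear_combination r * ha
    | zero =>
      rw [map_zero]
      unfold bl
      rw [zero_dotProduct, zero_dotProduct]
      ring
    | add a b _ _ ha hb =>
      rw [map_add, bl_add_left, bl_add_left, bl_add_left]
      linear_combination ha + hb
    | smul r a _ ha =>
      rw [map_smul, bl_smul_left, bl_smul_left, bl_smul_left]
      linear_combination r * ha
  exact h1 u (by rw [pt_span]; trivial) v (by rw [pt_span]; trivial)

theorem symm_tens (h : IsPolarised w ψ N) : (tens 2 ψ).transpose = tens 2 ψ := by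
  rw [tens_transpose, h.symm, tens_smul]
  have h1 : (((-1 : ℚ) ^ w) ^ 2) = 1 := by
    rw [← zpow_natCast, ← zpow_mul, mul_comm, zpow_mul]
    norm_num
  rw [h1, one_smul]

/-- A rational subspace of the tensors with two indices which is stable under `N` is the image of a
projection that is an endomorphism of the Hodge structure. -/
theorem exists_hodge_proj (prj : S_PRJ) (h : IsPolarised w ψ N)
    (U : Submodule ℚ ((Fin 2 → ι) → ℚ)) (hU : ∀ u ∈ U, dt 2 N (oc u) ∈ UC U) :
    ∃ Q : Module.End ℚ ((Fin 2 → ι) → ℚ), (∀ v, Q v ∈ U) ∧ (∀ u ∈ U, Q u = u) ∧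
      IsHodgeTens 2 N (LinearMap.toMatrix' Q) := by
  obtain ⟨B, p, hB, hNB, hHR⟩ := h.basis
  have hUC : ∀ y ∈ UC U, dt 2 N y ∈ UC U := by
    intro y hy
    have h1 := UC_span hy
    induction h1 using Submodule.span_induction with
    | mem y hy' =>
      obtain ⟨u, hu, rfl⟩ := hy'
      exact hU u hu
    | zero => rw [map_zero]; exact Submodule.zero_mem _
    | add a b ha' hb' ha hb =>
      rw [map_add]
      have hh : ∀ z ∈ Submodule.span ℂ (oc '' (U : Set ((Fin 2 → ι) → ℚ))), z ∈ UC U := by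
        intro z hz
        refine (Submodule.span_le.2 ?_ : _ ≤ UC U) hz
        rintro _ ⟨u, hu, rfl⟩
        exact oc_mem hu
      exact Submodule.add_mem _ (ha (hh a ha')) (hb (hh b hb'))
    | smul c a ha' ha =>
      rw [map_smul]
      have hh : ∀ z ∈ Submodule.span ℂ (oc '' (U : Set ((Fin 2 → ι) → ℚ))), z ∈ UC U := by
        intro z hz
        refine (Submodule.span_le.2 ?_ : _ ≤ UC U) hz
        rintro _ ⟨u, hu, rfl⟩
        exact oc_mem hu
      exact Submodule.smul_mem _ _ (ha (hh a ha'))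
  have hnd : ∀ u ∈ U, (∀ v ∈ U, bl (tens 2 ψ) u v = 0) → u = 0 := by
    intro u hu hv
    refine prj ι w ψ B p hB hHR u ?_
    have h1 : (tens 2 (weil B p)).mulVec (oc u) ∈ UC U := stable_weil hB hNB hUC _ (oc_mem hu)
    change bl (tens 2 (mapQ ℂ ψ)) (oc u) ((tens 2 (weil B p)).mulVec (oc u)) = 0
    rw [tens_mapQ]
    exact dual_zero fun φ => by rw [cv_bl']; exact hv _ (h1 φ)
  obtain ⟨Q, hQ1, hQ2, hQ3⟩ := exists_projection (tens 2 ψ) (symm_tens h) U hnd
  refine ⟨Q, hQ1, hQ2, ?_⟩
  have hQm : ∀ z φ, cv φ ((mapQ ℂ (LinearMap.toMatrix' Q)).mulVec z) = Q (cv φ z) := by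
    intro z φ
    rw [cv_mul, ← Matrix.toLin'_apply, Matrix.toLin'_toMatrix']
  have hQC : ∀ z, (mapQ ℂ (LinearMap.toMatrix' Q)).mulVec z ∈ UC U := by
    intro z φ
    rw [hQm]
    exact hQ1 _
  have hQ4 : ∀ z, ∀ v ∈ UC U, bl (mapQ ℂ (tens 2 ψ)) ((mapQ ℂ (LinearMap.toMatrix' Q)).mulVec z) v =
      bl (mapQ ℂ (tens 2 ψ)) z v := by
    intro z v hv
    have h1 := UC_span hv
    clear hv
    induction h1 using Submodule.span_induction with
    | mem v hv' =>
      obtain ⟨u, hu, rfl⟩ := hv'
      refine sub_eq_zero.1 (dual_zero fun φ => ?_)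
      rw [map_sub, cv_bl, cv_bl, hQm, hQ3 _ u hu, sub_self]
    | zero =>
      unfold bl
      rw [Matrix.mulVec_zero, dotProduct_zero, dotProduct_zero]
    | add a b _ _ ha hb => rw [bl_add_right, bl_add_right, ha, hb]
    | smul c a _ ha => rw [bl_smul_right, bl_smul_right, ha]
  unfold IsHodgeTens
  apply Matrix.toLin'.injective
  rw [Matrix.toLin'_mul, Matrix.toLin'_mul]
  refine LinearMap.ext fun y => ?_
  rw [LinearMap.comp_apply, LinearMap.comp_apply]
  unfold Td
  rw [Matrix.toLin'_toMatrix', Matrix.toLin'_apply, Matrix.toLin'_apply]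
  rw [← sub_eq_zero]
  have hδ : (mapQ ℂ (LinearMap.toMatrix' Q)).mulVec (dt 2 N y) -
      dt 2 N ((mapQ ℂ (LinearMap.toMatrix' Q)).mulVec y) ∈ UC U :=
    Submodule.sub_mem _ (hQC _) (hUC _ (hQC _))
  refine cv_zero fun φ => hnd _ (hδ φ) fun v hv => ?_
  rw [← cv_bl]
  have h0 : ∀ v ∈ UC U, bl (mapQ ℂ (tens 2 ψ)) ((mapQ ℂ (LinearMap.toMatrix' Q)).mulVec (dt 2 N y) -
      dt 2 N ((mapQ ℂ (LinearMap.toMatrix' Q)).mulVec y)) v = 0 := by
    intro v hv
    have e1 := bl_dt (form_of h) ((mapQ ℂ (LinearMap.toMatrix' Q)).mulVec y) v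
    have e2 := bl_dt (form_of h) y v
    rw [tens_mapQ] at e1 e2
    rw [bl_sub_left, hQ4 _ v hv]
    rw [hQ4 _ _ (hUC v hv), hQ4 _ v hv] at e1
    linear_combination e2 - e1
  rw [h0 _ (oc_mem hv), map_zero]

end

end Pool.Agent.P8H28.AD
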