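import Pool.Agent.P8H28.AD.Fin3

/-!
# Hodge classes in the tensor powers
-/

set_option linter.unusedSectionVars false

namespace Pool.Agent.P8H28.AD

open Pool.Agent.W528.ZC Pool.Agent.P8H28.QF Pool.Agent.P8H28.SQ
open Pool.Agent.P8H88.AD (cj_mul cj_cj cj_mapQ)

noncomputable section

variable {ι : Type} [Fintype ι] [DecidableEq ι] {w : ℤ} {ψ : Matrix ι ι ℚ} {N : Matrix ι ι ℂ}

/-- Positivity on the tensors with `n` indices (the proof of helper88 for `n = 2`). -/
theorem prjn (n : ℕ) {B : Matrix ι ι ℂ} {p : ι → ℤ} (hB : IsUnit B.det)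
    (hD : B.transpose * mapQ ℂ ψ * cj B = Matrix.diagonal (fun a => Complex.I ^ (w - 2 * p a)))
    (u : (Fin n → ι) → ℚ)
    (hu : bl (tens n (mapQ ℂ ψ)) (oc u) ((tens n (weil B p)).mulVec (oc u)) = 0) : u = 0 := by
  obtain ⟨v, hv⟩ : ∃ v : (Fin n → ι) → ℂ, v = oc u := ⟨_, rfl⟩
  unfold bl at hu
  rw [← hv] at hu
  have hvr : ∀ a, (starRingEnd ℂ) (v a) = v a := by
    intro a
    rw [hv]
    simp [oc]
  obtain ⟨c, hc⟩ : ∃ c : (Fin n → ι) → ℂ, c = (tens n B⁻¹).mulVec v := ⟨_, rfl⟩
  have hBc : (tens n B).mulVec c = v := by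
    rw [hc, Matrix.mulVec_mulVec, ← tens_mul, Matrix.mul_nonsing_inv _ hB, tens_one,
      Matrix.one_mulVec]
  have hcjB : (tens n (cj B)).mulVec (fun a => (starRingEnd ℂ) (c a)) = v := by
    funext a
    have h1 := congrFun hBc a
    rw [← hvr a, ← h1]
    simp only [Matrix.mulVec, dotProduct, map_sum, map_mul, tens_apply, map_prod, cj,
      Matrix.map_apply]
  have hD' : (cj B).transpose * mapQ ℂ ψ * B =
      Matrix.diagonal (fun a => (starRingEnd ℂ) (Complex.I ^ (w - 2 * p a))) := by
    have h1 := congrArg cj hD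
    rw [cj_mul, cj_mul, cj_mapQ, cj_cj] at h1
    have h2 : cj (B.transpose) = (cj B).transpose := by
      ext a b; rfl
    rw [h2] at h1
    rw [h1]
    ext a b
    by_cases hab : a = b
    · subst hab
      simp [cj]
    · simp [cj, Matrix.diagonal_apply_ne _ hab]
  have hI : ∀ a : ι, (starRingEnd ℂ) (Complex.I ^ (w - 2 * p a)) * (-1 : ℂ) ^ p a =
      (-Complex.I) ^ w := by
    intro a
    have h1 : (-Complex.I) ≠ 0 := neg_ne_zero.2 Complex.I_ne_zero
    rw [map_zpow₀, Complex.conj_I, zpow_sub₀ h1, _root_.zpow_mul]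
    have h2 : (-Complex.I) ^ (2 : ℤ) = -1 := by
      rw [zpow_ofNat]
      simp
    rw [h2, div_mul_cancel₀ _ (zpow_ne_zero _ (by norm_num))]
  have hmat : (cj B).transpose * mapQ ℂ ψ * (B * Matrix.diagonal (fun a => ((-1 : ℂ) ^ p a))) =
      ((-Complex.I) ^ w) • (1 : Matrix ι ι ℂ) := by
    rw [← Matrix.mul_assoc, hD', Matrix.diagonal_mul_diagonal, Matrix.smul_one_eq_diagonal]
    congr 1
    funext a
    exact hI a
  have h1 : (tens n (weil B p)).mulVec v =
      (tens n (B * Matrix.diagonal (fun a => ((-1 : ℂ) ^ p a)))).mulVec c := by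
    unfold weil
    rw [hc, Matrix.mulVec_mulVec, ← tens_mul]
  have h2 : v ⬝ᵥ ((tens n (mapQ ℂ ψ)).mulVec ((tens n (weil B p)).mulVec v)) =
      ((-Complex.I) ^ w) ^ n * ∑ a, (starRingEnd ℂ) (c a) * c a := by
    rw [h1]
    conv_lhs => rw [← hcjB]
    rw [← Matrix.vecMul_transpose, ← Matrix.dotProduct_mulVec, tens_transpose, Matrix.mulVec_mulVec,
      Matrix.mulVec_mulVec, ← tens_mul, ← tens_mul, hmat, tens_smul, tens_one, Matrix.smul_mulVec,
      Matrix.one_mulVec]
    simp only [dotProduct, Pi.smul_apply, smul_eq_mul, Finset.mul_sum]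
    refine Finset.sum_congr rfl fun a _ => ?_
    ring
  rw [h2] at hu
  have hne : ((-Complex.I) ^ w) ^ n ≠ 0 :=
    pow_ne_zero _ (zpow_ne_zero _ (neg_ne_zero.2 Complex.I_ne_zero))
  have h3 : ∑ a, (starRingEnd ℂ) (c a) * c a = 0 := (mul_eq_zero.1 hu).resolve_left hne
  have h4 : ∑ a, Complex.normSq (c a) = 0 := by
    have h5 : ((∑ a, Complex.normSq (c a) : ℝ) : ℂ) = 0 := by
      rw [Complex.ofReal_sum, ← h3]
      exact Finset.sum_congr rfl fun a _ => Complex.normSq_eq_conj_mul_self
    exact_mod_cast h5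
  have h5 : c = 0 := by
    funext a
    have h6 := (Finset.sum_eq_zero_iff_of_nonneg fun a _ => Complex.normSq_nonneg (c a)).1 h4 a
      (Finset.mem_univ a)
    exact Complex.normSq_eq_zero.1 h6
  rw [h5, Matrix.mulVec_zero] at hBc
  funext a
  have h6 := congrFun hBc a
  rw [hv] at h6
  have h7 : ((u a : ℚ) : ℂ) = 0 := h6.symm
  exact_mod_cast h7

/-- The action of a similitude on the form on the tensors with `n` indices. -/
theorem bl_dtn {K : Type} [Field K] {n : ℕ} {S x : Matrix ι ι K} {c : K}
    (hx : x.transpose * S + S * x = c • S) (u v : (Fin n → ι) → K) :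
    bl (tens n S) (dt n x u) v + bl (tens n S) u (dt n x v) = (n * c) * bl (tens n S) u v := by
  have hx' : ∀ a b : ι → K, bl S (x.mulVec a) b + bl S a (x.mulVec b) = c * bl S a b := by
    intro a b
    unfold bl
    have h1 := congrArg (fun M : Matrix ι ι K => a ⬝ᵥ M.mulVec b) hx
    simp only [Matrix.add_mulVec, dotProduct_add, ← Matrix.mulVec_mulVec, Matrix.smul_mulVec,
      dotProduct_smul, smul_eq_mul] at h1
    rw [← h1]
    congr 1
    rw [Matrix.dotProduct_mulVec a, ← Matrix.mulVec_transpose, Matrix.transpose_transpose]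
  have key : ∀ v v' : Fin n → ι → K, bl (tens n S) (dt n x (pt v)) (pt v') +
      bl (tens n S) (pt v) (dt n x (pt v')) = (n * c) * bl (tens n S) (pt v) (pt v') := by
    intro v v'
    have hl : ∀ (s : Finset (Fin n)) (F : Fin n → (Fin n → ι) → K) (z : (Fin n → ι) → K),
        bl (tens n S) (∑ k ∈ s, F k) z = ∑ k ∈ s, bl (tens n S) (F k) z := by
      intro s F z
      induction s using Finset.induction_on with
      | empty => simp [bl]
      | insert k s hk ih => rw [Finset.sum_insert hk, Finset.sum_insert hk, bl_add_left, ih]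
    have hr : ∀ (s : Finset (Fin n)) (F : Fin n → (Fin n → ι) → K) (z : (Fin n → ι) → K),
        bl (tens n S) z (∑ k ∈ s, F k) = ∑ k ∈ s, bl (tens n S) z (F k) := by
      intro s F z
      induction s using Finset.induction_on with
      | empty => simp [bl]
      | insert k s hk ih => rw [Finset.sum_insert hk, Finset.sum_insert hk, bl_add_right, ih]
    rw [dt_pt, dt_pt, hl, hr, ← Finset.sum_add_distrib]
    have hk : ∀ k, bl (tens n S) (pt (Function.update v k (x.mulVec (v k)))) (pt v') +
        bl (tens n S) (pt v) (pt (Function.update v' k (x.mulVec (v' k)))) =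
          c * bl (tens n S) (pt v) (pt v') := by
      intro k
      rw [bl_pt, bl_pt, bl_pt, ← Finset.mul_prod_erase _ _ (Finset.mem_univ k),
        ← Finset.mul_prod_erase _ _ (Finset.mem_univ k),
        ← Finset.mul_prod_erase _ _ (Finset.mem_univ k), Function.update_self,
        Function.update_self]
      have e1 : ∏ i ∈ Finset.univ.erase k, bl S (Function.update v k (x.mulVec (v k)) i) (v' i) =
          ∏ i ∈ Finset.univ.erase k, bl S (v i) (v' i) :=
        Finset.prod_congr rfl fun i hi => by
          rw [Function.update_of_ne (Finset.mem_erase.1 hi).1]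
      have e2 : ∏ i ∈ Finset.univ.erase k, bl S (v i) (Function.update v' k (x.mulVec (v' k)) i) =
          ∏ i ∈ Finset.univ.erase k, bl S (v i) (v' i) :=
        Finset.prod_congr rfl fun i hi => by
          rw [Function.update_of_ne (Finset.mem_erase.1 hi).1]
      rw [e1, e2]
      linear_combination (∏ i ∈ Finset.univ.erase k, bl S (v i) (v' i)) * hx' (v k) (v' k)
    rw [Finset.sum_congr rfl fun k _ => hk k, Finset.sum_const, Finset.card_univ,
      Fintype.card_fin, nsmul_eq_mul, mul_assoc]
  have h1 : ∀ u ∈ Submodule.span K (Set.range fun v : Fin n → ι → K => pt v),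
      ∀ v ∈ Submodule.span K (Set.range fun v : Fin n → ι → K => pt v),
      bl (tens n S) (dt n x u) v + bl (tens n S) u (dt n x v) = (n * c) * bl (tens n S) u v := by
    intro u hu v hv
    induction hu using Submodule.span_induction with
    | mem u hu =>
      obtain ⟨a, rfl⟩ := hu
      induction hv using Submodule.span_induction with
      | mem v hv =>
        obtain ⟨b, rfl⟩ := hv
        exact key a b
      | zero =>
        rw [map_zero]
        unfold bl
        rw [Matrix.mulVec_zero, dotProduct_zero, dotProduct_zero]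
        ring
      | add a' b _ _ ha hb =>
        rw [map_add, bl_add_right, bl_add_right, bl_add_right]
        linear_combination ha + hb
      | smul r a' _ ha =>
        rw [map_smul, bl_smul_right, bl_smul_right, bl_smul_right]
        linear_combination r * ha
    | zero =>
      rw [map_zero]
      unfold bl
      rw [zero_dotProduct, zero_dotProduct]
      ring
    | add a b _ _ ha hb =>
      rw [map_add, bl_add_left, bl_add_left, bl_add_left]
      linear_combination ha + hb
    | smul r a _ ha =>
      rw [map_smul, bl_smul_left, bl_smul_left, bl_smul_left]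
      linear_combination r * ha
  exact h1 u (by rw [pt_span]; trivial) v (by rw [pt_span]; trivial)

end

end Pool.Agent.P8H28.AD
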