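import Pool.Agent.P8H28.AD.Vec

/-!
# Hodge classes in the tensor powers, conclusion
-/

set_option linter.unusedSectionVars false

namespace Pool.Agent.P8H28.AD

open Pool.Agent.W528.ZC Pool.Agent.P8H28.QF Pool.Agent.P8H28.SQ

noncomputable section

variable {ι : Type} [Fintype ι] [DecidableEq ι] {w : ℤ} {ψ : Matrix ι ι ℚ} {N : Matrix ι ι ℂ}
  {n : ℕ}

theorem Td_vec {K : Type} [Field K] (x : Matrix ι ι K) (u : (Fin n → ι) → K) :
    (Td n x).mulVec u = dt n x u := by
  unfold Td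
  rw [← Matrix.toLin'_apply, Matrix.toLin'_toMatrix']

theorem ofQ_oc (u : (Fin n → ι) → ℚ) : ofQ ℂ u = oc u := rfl

theorem hodge_dt {u : (Fin n → ι) → ℚ} (hu : IsHodgeClass n w N u) :
    dt n N (oc u) = ((n : ℂ) * w / 2) • oc u := by
  unfold IsHodgeClass at hu
  rwa [Td_vec] at hu

/-- The endomorphism given by a Hodge class. -/
def rk (ψ : Matrix ι ι ℚ) (u : (Fin n → ι) → ℚ) : Matrix (Fin n → ι) (Fin n → ι) ℚ :=
  Matrix.of fun a b => u a * ((tens n ψ).mulVec u) b

theorem rk_vec (u z : (Fin n → ι) → ℚ) : (rk ψ u).mulVec z = bl (tens n ψ) z u • u := by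
  funext a
  change ∑ b, u a * ((tens n ψ).mulVec u) b * z b = (∑ b, z b * ((tens n ψ).mulVec u) b) * u a
  rw [Finset.sum_mul]
  exact Finset.sum_congr rfl fun b _ => by ring

theorem rk_vecC (u : (Fin n → ι) → ℚ) (z : (Fin n → ι) → ℂ) :
    (mapQ ℂ (rk ψ u)).mulVec z = bl (tens n (mapQ ℂ ψ)) z (oc u) • oc u := by
  rw [tens_mapQ]
  have h1 : (mapQ ℂ (tens n ψ)).mulVec (oc u) = oc ((tens n ψ).mulVec u) := by
    funext a
    change ∑ b, algebraMap ℚ ℂ (tens n ψ a b) * algebraMap ℚ ℂ (u b) =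
      algebraMap ℚ ℂ (∑ b, tens n ψ a b * u b)
    rw [map_sum]
    exact Finset.sum_congr rfl fun b _ => (map_mul _ _ _).symm
  funext a
  unfold bl
  rw [h1]
  change ∑ b, algebraMap ℚ ℂ (u a * ((tens n ψ).mulVec u) b) * z b =
    (∑ b, z b * algebraMap ℚ ℂ (((tens n ψ).mulVec u) b)) * algebraMap ℚ ℂ (u a)
  rw [Finset.sum_mul]
  refine Finset.sum_congr rfl fun b _ => ?_
  rw [map_mul]
  ring

theorem rk_hodge (h : IsPolarised w ψ N) {u : (Fin n → ι) → ℚ} (hu : IsHodgeClass n w N u) :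
    IsHodgeTens n N (rk ψ u) := by
  unfold IsHodgeTens
  apply Matrix.toLin'.injective
  rw [Matrix.toLin'_mul, Matrix.toLin'_mul]
  refine LinearMap.ext fun z => ?_
  rw [LinearMap.comp_apply, LinearMap.comp_apply, Matrix.toLin'_apply, Matrix.toLin'_apply,
    Matrix.toLin'_apply, Matrix.toLin'_apply, Td_vec, Td_vec, rk_vecC, rk_vecC, map_smul,
    hodge_dt hu, smul_smul]
  congr 1
  have e := bl_dtn (form_of h) z (oc u)
  rw [hodge_dt hu, bl_smul_right] at e
  linear_combination e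

/-- A Hodge class is not isotropic. -/
theorem bl_ne (h : IsPolarised w ψ N) {u : (Fin n → ι) → ℚ} (hu : IsHodgeClass n w N u)
    (h0 : bl (tens n ψ) u u = 0) : u = 0 := by
  obtain ⟨B, p, hB, hNB, hHR⟩ := h.basis
  obtain ⟨φ, hφ⟩ := exists_sign
  have hrep := replica_of_top (top_weil (m := n) (N := N) (B := B) (p := p) hφ hB hNB)
  refine prjn n hB hHR u ?_
  have h1 : Matrix.toLin' (tens n (weil B p)) (oc u) = φ ((n : ℂ) * w / 2) • oc u := by
    refine hrep _ _ ?_
    rw [Module.End.mem_maxGenEigenspace]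
    refine ⟨1, ?_⟩
    rw [pow_one, LinearMap.sub_apply, hodge_dt hu]
    exact sub_self _
  rw [Matrix.toLin'_apply] at h1
  rw [h1, bl_smul_right, tens_mapQ]
  have h2 : bl (mapQ ℂ (tens n ψ)) (oc u) (oc u) = 0 := dual_zero fun φ => by
    rw [cv_bl', cv_oc, bl_smul_right, h0, mul_zero]
  rw [h2, mul_zero]

/-- The Lie algebra acts on the Hodge classes by the multiplicator. -/
theorem gQ_vec (h : IsPolarised w ψ N) {u : (Fin n → ι) → ℚ} (hu : IsHodgeClass n w N u)
    {x : Matrix ι ι ℚ} (hx : x ∈ gQ ψ N) {c : ℚ} (hc : IsSim ψ c x) :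
    dt n x u = ((n : ℚ) * c / 2) • u := by
  by_cases h0 : bl (tens n ψ) u u = 0
  · rw [bl_ne h hu h0, map_zero, smul_zero]
  have h1 := (mem_hA.1 hx n).2.2 _ (rk_hodge h hu)
  have h2 := congrArg (fun M : Matrix _ _ ℚ => M.mulVec u) h1
  simp only [← Matrix.mulVec_mulVec] at h2
  rw [Td_vec, Td_vec, rk_vec, rk_vec, map_smul] at h2
  -- `bl (dt x u) u • u = bl u u • dt x u`
  have h3 : dt n x u = (bl (tens n ψ) (dt n x u) u / bl (tens n ψ) u u) • u := by
    rw [div_eq_inv_mul, mul_smul, h2, smul_smul, inv_mul_cancel₀ h0, one_smul]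
  set l := bl (tens n ψ) (dt n x u) u / bl (tens n ψ) u u with hl
  have h4 := bl_dtn hc u u
  rw [h3, bl_smul_left, bl_smul_right] at h4
  have h5 : l = (n : ℚ) * c / 2 := by
    have h6 : (2 * l - n * c) * bl (tens n ψ) u u = 0 := by linear_combination h4
    rcases mul_eq_zero.1 h6 with h7 | h7
    · linear_combination h7 / 2
    · exact absurd h7 h0
  rw [h3, h5]

theorem dt_ofQ {K : Type} [Field K] [Algebra ℚ K] (x : Matrix ι ι ℚ) (u : (Fin n → ι) → ℚ) :
    dt n (mapQ K x) (ofQ K u) = ofQ K (dt n x u) := by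
  rw [← Td_vec, ← Td_vec]
  unfold mapQ
  rw [Td_map]
  funext a
  change ∑ b, algebraMap ℚ K (Td n x a b) * algebraMap ℚ K (u b) =
    algebraMap ℚ K (∑ b, Td n x a b * u b)
  rw [map_sum]
  exact Finset.sum_congr rfl fun b _ => (map_mul _ _ _).symm

theorem ofQ_smul {K : Type} [Field K] [Algebra ℚ K] {κ : Type} (c : ℚ) (u : κ → ℚ) :
    ofQ K (c • u) = algebraMap ℚ K c • ofQ K u := funext fun _ => map_mul _ _ _

/-- The same over an extension field. -/
theorem span_vec {K : Type} [Field K] [Algebra ℚ K] (hψ : IsUnit ψ.det)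
    {u : (Fin n → ι) → ℚ}
    (hg : ∀ x ∈ gQ ψ N, ∀ c, IsSim ψ c x → dt n x u = ((n : ℚ) * c / 2) • u)
    {y : Matrix ι ι K} (hy : y ∈ Submodule.span K (mapQ K '' (gQ ψ N : Set (Matrix ι ι ℚ))))
    {d : K} (hd : IsSim (mapQ K ψ) d y) :
    dt n y (ofQ K u) = ((n : K) * d / 2) • ofQ K u := by
  have key : ∃ d', IsSim (mapQ K ψ) d' y ∧ dt n y (ofQ K u) = ((n : K) * d' / 2) • ofQ K u := by
    clear hd
    induction hy using Submodule.span_induction with
    | mem y hy =>
      obtain ⟨x, hx, rfl⟩ := hy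
      obtain ⟨c, hc⟩ := sim_of_gQ hx
      refine ⟨algebraMap ℚ K c, sim_mapQ hc, ?_⟩
      rw [dt_ofQ, hg x hx c hc, ofQ_smul]
      congr 1
      rw [map_div₀, map_mul, map_natCast, map_ofNat]
    | zero =>
      refine ⟨0, ?_, ?_⟩
      · unfold IsSim
        rw [Matrix.transpose_zero, zero_mul, mul_zero, add_zero, zero_smul]
      · rw [map_zero, mul_zero, zero_div, zero_smul]
        rfl
    | add a b _ _ ha hb =>
      obtain ⟨d1, e1, e2⟩ := ha
      obtain ⟨d2, e3, e4⟩ := hb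
      refine ⟨d1 + d2, sim_add e1 e3, ?_⟩
      rw [map_add, LinearMap.add_apply, e2, e4, ← add_smul]
      congr 1
      ring
    | smul r a _ ha =>
      obtain ⟨d1, e1, e2⟩ := ha
      refine ⟨r * d1, sim_smul e1 r, ?_⟩
      rw [map_smul, LinearMap.smul_apply, e2, smul_smul]
      congr 1
      ring
  obtain ⟨d', h1, h2⟩ := key
  rw [h2]
  by_cases he : IsEmpty ι
  · by_cases hn : n = 0
    · subst hn
      rw [Nat.cast_zero, zero_mul, zero_mul]
    · funext a
      exact he.elim (a ⟨0, Nat.pos_of_ne_zero hn⟩)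
  · have h3 : d' = d := by
      have h4 : d' • mapQ K ψ = d • mapQ K ψ := by
        have e1 : (mapQ K ψ) ≠ 0 := by
          intro h0
          have h5 := mapQ_det (K := K) hψ
          rw [h0] at h5
          have : Nonempty ι := not_isEmpty_iff.1 he
          rw [Matrix.det_zero] at h5
          exact not_isUnit_zero h5
        exact h1.symm.trans hd
      have e1 : (mapQ K ψ) ≠ 0 := by
        intro h0
        have h5 := mapQ_det (K := K) hψ
        rw [h0] at h5
        have : Nonempty ι := not_isEmpty_iff.1 he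
        rw [Matrix.det_zero] at h5
        exact not_isUnit_zero h5
      exact smul_left_injective K e1 h4
    rw [h3]

/-- The elements on which the Lie algebra acts by the multiplicator are combinations of Hodge
classes. -/
theorem vec_span {K : Type} [Field K] [Algebra ℚ K] (h : IsPolarised w ψ N)
    {z : (Fin n → ι) → K}
    (hz : ∀ x ∈ gQ ψ N, ∀ c, IsSim ψ c x →
      dt n (mapQ K x) z = ((n : K) * algebraMap ℚ K c / 2) • z) :
    z ∈ Submodule.span K (ofQ K '' {u : (Fin n → ι) → ℚ | IsHodgeClass n w N u}) := by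
  have h1 := mem_span_crd (k := ℚ) (Matrix.of fun (a : Fin n → ι) (_ : Fin 1) => z a)
  let F : Matrix (Fin n → ι) (Fin 1) K →ₗ[K] ((Fin n → ι) → K) :=
    { toFun := fun M a => M a 0
      map_add' := fun _ _ => rfl
      map_smul' := fun _ _ => rfl }
  have h2 := Submodule.mem_map_of_mem (f := F) h1
  rw [Submodule.map_span] at h2
  refine Submodule.span_mono ?_ h2
  rintro _ ⟨_, ⟨φ, rfl⟩, rfl⟩
  refine ⟨fun a => φ (z a), ?_, rfl⟩
  change IsHodgeClass n w N (fun a => φ (z a))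
  have h3 : ∀ x ∈ gQ ψ N, ∀ c, IsSim ψ c x →
      dt n x (fun a => φ (z a)) = ((n : ℚ) * c / 2) • fun a => φ (z a) := by
    intro x hx c hc
    have h4 := hz x hx c hc
    have h5 : ∀ a, φ (dt n (mapQ K x) z a) = dt n x (fun a => φ (z a)) a := by
      intro a
      rw [← Td_vec, ← Td_vec]
      unfold mapQ
      rw [Td_map]
      change φ (∑ b, algebraMap ℚ K (Td n x a b) * z b) = ∑ b, Td n x a b * φ (z b)
      rw [map_sum]
      exact Finset.sum_congr rfl fun b _ => lin_smul φ _ _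
    funext a
    rw [← h5, h4]
    change φ (((n : K) * algebraMap ℚ K c / 2) * z a) = ((n : ℚ) * c / 2) * φ (z a)
    have h6 : (n : K) * algebraMap ℚ K c / 2 = algebraMap ℚ K ((n : ℚ) * c / 2) := by
      rw [map_div₀, map_mul, map_natCast, map_ofNat]
    rw [h6, lin_smul]
  unfold IsHodgeClass
  rw [Td_vec]
  exact span_vec (det_unit h) h3 (N_span h) (form_of h)

/-- **The comparison of the Hodge classes on the tensor powers.** -/
theorem final {ψ' : Matrix ι ι ℚ} {N' : Matrix ι ι ℂ} (h : IsPolarised w ψ N)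
    (h' : IsPolarised w ψ' N') (hcen : SelfAdjointCentre ψ N ∨ LargeCentre ψ N)
    {K : Type} [Field K] [Algebra ℚ K] {f g : Matrix ι ι K} (hfg : f * g = 1) {c : K} (hc : c ≠ 0)
    (hf : f.transpose * mapQ K ψ' * f = c • mapQ K ψ)
    (h1 : ∀ e, IsHodgeEnd N e → f * mapQ K e * g ∈
      Submodule.span K (mapQ K '' {e | IsHodgeEnd N' e}))
    (h2 : ∀ M, OnSquare (-(-1) ^ w) M → IsHodgeTens 2 N M → tens 2 f * mapQ K M * tens 2 g ∈
      Submodule.span K (mapQ K '' {M | IsHodgeTens 2 N' M}))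
    (n : ℕ) (u : (Fin n → ι) → ℚ) (hu : IsHodgeClass n w N u) :
    (tens n f).mulVec (ofQ K u) ∈ Submodule.span K (ofQ K '' {u | IsHodgeClass n w N' u}) := by
  have hψ := det_unit h
  refine vec_span h' fun x hx d hd => ?_
  obtain ⟨h3, h4⟩ := main_key h hψ (cen_of hψ hcen) hfg hc hf h1 h2 x hx d hd
  have h5 := span_vec hψ (fun x hx c hc => gQ_vec h hu hx hc) h4 h3
  have hgf : g * f = 1 := mul_eq_one_comm.1 hfg
  have h6 : Td n (mapQ K x) * tens n f = tens n f * Td n (g * mapQ K x * f) := by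
    rw [← Td_conj hgf, ← mul_assoc, ← mul_assoc, ← tens_mul, hfg, tens_one, one_mul]
  rw [← Td_vec, Matrix.mulVec_mulVec, h6, ← Matrix.mulVec_mulVec, Td_vec, h5, Matrix.mulVec_smul]

end

end Pool.Agent.P8H28.AD
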